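import Mathlib

set_option autoImplicit false

namespace Pool.Agent.Results.MP_1d2509_nt.EvenOrder

open Finset

/-! ## Definitions -/

/-- The counting function `S(n) = |S ∩ {1, ..., n}|`. -/
noncomputable def count (S : Set ℕ) (n : ℕ) : ℕ := (S ∩ Set.Icc 1 n).ncard

/-- `S` is an `α`-strong `B_h` set: for all `x_1, ..., x_h, y_1, ..., y_h ∈ S` (repetitions allowed)
with `max x ≠ max y`, the distance of the two sums is at least every `x_i^α` and every `y_i^α`. -/
def IsStrongB (α : ℝ) (h : ℕ) (S : Set ℕ) : Prop :=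
  ∀ x y : Fin h → ℕ, (∀ i, x i ∈ S) → (∀ i, y i ∈ S) →
    Finset.univ.sup x ≠ Finset.univ.sup y →
    ∀ i, max ((x i : ℝ) ^ α) ((y i : ℝ) ^ α) ≤ |∑ j, (x j : ℝ) - ∑ j, (y j : ℝ)|

/-! ## Separation -/

lemma exists_fun_of_multiset (h : ℕ) (P : Multiset ℕ) (hP : Multiset.card P = h) :
    ∃ x : Fin h → ℕ, (∀ i, x i ∈ P) ∧ (∀ z ∈ P, ∃ i, x i = z) ∧
      ∑ j, (x j : ℝ) = ((P.sum : ℕ) : ℝ) := by
  induction P using Quotient.inductionOn with
  | h l =>
    simp only [Multiset.quot_mk_to_coe, Multiset.coe_card] at hP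
    subst hP
    refine ⟨fun i => l.get i, fun i => ?_, fun z hz => ?_, ?_⟩
    · simp
    · simp only [Multiset.quot_mk_to_coe, Multiset.mem_coe] at hz
      obtain ⟨i, hi⟩ := List.get_of_mem hz
      exact ⟨i, hi⟩
    · simp only [Multiset.quot_mk_to_coe, Multiset.sum_coe]
      rw [← Nat.cast_sum]
      congr 1
      simp

lemma exists_max_multiset (P : Multiset ℕ) (hP : P ≠ 0) : ∃ M ∈ P, ∀ z ∈ P, z ≤ M := by
  have hne : P.toFinset.Nonempty := by
    obtain ⟨x, hx⟩ := Multiset.exists_mem_of_ne_zero hP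
    exact ⟨x, by simpa using hx⟩
  refine ⟨P.toFinset.max' hne, ?_, fun z hz => ?_⟩
  · have := P.toFinset.max'_mem hne
    simpa using this
  · exact Finset.le_max' _ _ (by simpa using hz)

lemma sep_multiset {α : ℝ} {h : ℕ} {S : Set ℕ} (hS : IsStrongB α h S) (P Q : Multiset ℕ)
    (hPS : ∀ x ∈ P, x ∈ S) (hQS : ∀ x ∈ Q, x ∈ S) (hcard : Multiset.card P = Multiset.card Q)
    (hle : Multiset.card P ≤ h) (z : ℕ) (hz : z ∈ P - Q) :
    (z : ℝ) ^ α ≤ |((P.sum : ℕ) : ℝ) - ((Q.sum : ℕ) : ℝ)| := by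
  have hPd : P - Q + P ∩ Q = P := Multiset.sub_add_inter P Q
  have hQd : Q - P + P ∩ Q = Q := by
    rw [Multiset.inter_comm]
    exact Multiset.sub_add_inter Q P
  have hc1 : Multiset.card (P - Q) + Multiset.card (P ∩ Q) = Multiset.card P := by
    rw [← Multiset.card_add, hPd]
  have hc2 : Multiset.card (Q - P) + Multiset.card (P ∩ Q) = Multiset.card Q := by
    rw [← Multiset.card_add, hQd]
  have hPne : P - Q ≠ 0 := by
    rintro h0
    rw [h0] at hz
    simp at hz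
  have hQne : Q - P ≠ 0 := by
    intro h0
    rw [h0] at hc2
    have : Multiset.card (P - Q) = 0 := by
      simp only [Multiset.card_zero] at hc2
      omega
    exact hPne (Multiset.card_eq_zero.1 this)
  obtain ⟨M, hM, hMmax⟩ := exists_max_multiset _ hPne
  obtain ⟨M', hM', hMmax'⟩ := exists_max_multiset _ hQne
  have hMM' : M ≠ M' := by
    rintro rfl
    have h1 := Multiset.count_pos.2 hM
    have h2 := Multiset.count_pos.2 hM'
    rw [Multiset.count_sub] at h1 h2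
    omega
  have hmem1 : ∀ x ∈ P - Q, x ∈ S := fun x hx => hPS x (Multiset.mem_of_le (Multiset.sub_le_self _ _) hx)
  have hmem2 : ∀ x ∈ Q - P, x ∈ S := fun x hx => hQS x (Multiset.mem_of_le (Multiset.sub_le_self _ _) hx)
  set m0 := min M M' with hm0
  have hm0S : m0 ∈ S := by
    rcases min_choice M M' with h1 | h1
    · rw [hm0, h1]; exact hmem1 M hM
    · rw [hm0, h1]; exact hmem2 M' hM'
  set e := h - Multiset.card (P - Q) with he
  have hcPQ : Multiset.card (P - Q) = Multiset.card (Q - P) := by omega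
  obtain ⟨x, hx1, hx2, hx3⟩ := exists_fun_of_multiset h (P - Q + Multiset.replicate e m0) (by
    rw [Multiset.card_add, Multiset.card_replicate]; omega)
  obtain ⟨y, hy1, hy2, hy3⟩ := exists_fun_of_multiset h (Q - P + Multiset.replicate e m0) (by
    rw [Multiset.card_add, Multiset.card_replicate]; omega)
  have hxS : ∀ i, x i ∈ S := by
    intro i
    rcases Multiset.mem_add.1 (hx1 i) with h1 | h1
    · exact hmem1 _ h1
    · rw [Multiset.eq_of_mem_replicate h1]; exact hm0S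
  have hyS : ∀ i, y i ∈ S := by
    intro i
    rcases Multiset.mem_add.1 (hy1 i) with h1 | h1
    · exact hmem2 _ h1
    · rw [Multiset.eq_of_mem_replicate h1]; exact hm0S
  have hsupx : Finset.univ.sup x = M := by
    apply le_antisymm
    · apply Finset.sup_le
      intro i _
      rcases Multiset.mem_add.1 (hx1 i) with h1 | h1
      · exact hMmax _ h1
      · rw [Multiset.eq_of_mem_replicate h1]; exact min_le_left _ _
    · obtain ⟨i, hi⟩ := hx2 M (Multiset.mem_add.2 (Or.inl hM))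
      rw [← hi]
      exact Finset.le_sup (Finset.mem_univ i)
  have hsupy : Finset.univ.sup y = M' := by
    apply le_antisymm
    · apply Finset.sup_le
      intro i _
      rcases Multiset.mem_add.1 (hy1 i) with h1 | h1
      · exact hMmax' _ h1
      · rw [Multiset.eq_of_mem_replicate h1]; exact min_le_right _ _
    · obtain ⟨i, hi⟩ := hy2 M' (Multiset.mem_add.2 (Or.inl hM'))
      rw [← hi]
      exact Finset.le_sup (Finset.mem_univ i)
  obtain ⟨i, hi⟩ := hx2 z (Multiset.mem_add.2 (Or.inl hz))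
  have key := hS x y hxS hyS (by rw [hsupx, hsupy]; exact hMM') i
  rw [hi, hx3, hy3] at key
  refine (le_max_left _ _).trans (key.trans (le_of_eq ?_))
  congr 1
  have e1 : ((P.sum : ℕ) : ℝ) = (((P - Q).sum : ℕ) : ℝ) + (((P ∩ Q).sum : ℕ) : ℝ) := by
    rw [← Nat.cast_add, ← Multiset.sum_add, hPd]
  have e2 : ((Q.sum : ℕ) : ℝ) = (((Q - P).sum : ℕ) : ℝ) + (((P ∩ Q).sum : ℕ) : ℝ) := by
    rw [← Nat.cast_add, ← Multiset.sum_add, hQd]
  rw [e1, e2, Multiset.sum_add, Multiset.sum_add]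
  push_cast
  ring

/-- the sum of a finite set of integers, as a real number -/
noncomputable def sg (T : Finset ℕ) : ℝ := ((∑ x ∈ T, x : ℕ) : ℝ)

lemma sep_pair {α : ℝ} {h : ℕ} {S : Set ℕ} (hS : IsStrongB α h S) (T T' V V' : Finset ℕ)
    (hT : ∀ x ∈ T, x ∈ S) (hT' : ∀ x ∈ T', x ∈ S) (hV : ∀ x ∈ V, x ∈ S) (hV' : ∀ x ∈ V', x ∈ S)
    (hcard : T.card + V'.card = V.card + T'.card) (hle : T.card + V'.card ≤ h)
    (z : ℕ) (hz : z ∈ T) (hz1 : z ∉ T') (hz2 : z ∉ V) :
    (z : ℝ) ^ α ≤ |(sg T - sg T') - (sg V - sg V')| := by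
  have key := sep_multiset hS (T.val + V'.val) (V.val + T'.val) (by
    intro x hx
    rcases Multiset.mem_add.1 hx with h1 | h1
    · exact hT x h1
    · exact hV' x h1) (by
    intro x hx
    rcases Multiset.mem_add.1 hx with h1 | h1
    · exact hV x h1
    · exact hT' x h1) (by simpa using hcard) (by simpa using hle) z (by
      rw [← Multiset.count_pos, Multiset.count_sub, Multiset.count_add, Multiset.count_add]
      have h1 : Multiset.count z T.val = 1 := Multiset.count_eq_one_of_mem T.nodup hz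
      have h2 : Multiset.count z V.val = 0 := Multiset.count_eq_zero_of_notMem hz2
      have h3 : Multiset.count z T'.val = 0 := Multiset.count_eq_zero_of_notMem hz1
      omega)
  refine key.trans (le_of_eq ?_)
  congr 1
  rw [Multiset.sum_add, Multiset.sum_add]
  have hs : ∀ U : Finset ℕ, ((U.val.sum : ℕ) : ℝ) = sg U := by
    intro U
    unfold sg
    rw [Finset.sum_val]
    rfl
  push_cast
  rw [← hs, ← hs, ← hs, ← hs]
  push_cast
  ring

/-- two different pairs of disjoint sets of the same size -/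
lemma sep_ne {α : ℝ} (hα : 0 ≤ α) {h s : ℕ} {S : Set ℕ} (hS : IsStrongB α h S)
    (T T' V V' : Finset ℕ)
    (hT : ∀ x ∈ T, x ∈ S) (hT' : ∀ x ∈ T', x ∈ S) (hV : ∀ x ∈ V, x ∈ S) (hV' : ∀ x ∈ V', x ∈ S)
    (cT : T.card = s) (cT' : T'.card = s) (cV : V.card = s) (cV' : V'.card = s)
    (hle : s + s ≤ h) (hd : Disjoint T T')
    (hne : ¬ (T = V ∧ T' = V')) (N : ℕ) (hTN : ∀ x ∈ T, N ≤ x) (hTN' : ∀ x ∈ T', N ≤ x) :
    (N : ℝ) ^ α ≤ |(sg T - sg T') - (sg V - sg V')| := by
  by_cases h1 : T = V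
  · have h2 : T' ≠ V' := fun h2 => hne ⟨h1, h2⟩
    have h3 : ¬ T' ⊆ V' := fun h3 => h2 (Finset.eq_of_subset_of_card_le h3 (by omega))
    obtain ⟨z, hz, hz2⟩ := Finset.not_subset.1 h3
    have h4 := sep_pair hS T' T V' V hT' hT hV' hV (by omega) (by omega) z hz
      (fun hzT => Finset.disjoint_left.1 hd hzT hz) hz2
    have h5 : (N : ℝ) ^ α ≤ (z : ℝ) ^ α :=
      Real.rpow_le_rpow (Nat.cast_nonneg _) (by exact_mod_cast hTN' z hz) hα
    refine h5.trans (h4.trans (le_of_eq ?_))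
    rw [← abs_neg]
    congr 1
    ring
  · have h3 : ¬ T ⊆ V := fun h3 => h1 (Finset.eq_of_subset_of_card_le h3 (by omega))
    obtain ⟨z, hz, hz2⟩ := Finset.not_subset.1 h3
    have h4 := sep_pair hS T T' V V' hT hT' hV hV' (by omega) (by omega) z hz
      (fun hzT => Finset.disjoint_left.1 hd hz hzT) hz2
    have h5 : (N : ℝ) ^ α ≤ (z : ℝ) ^ α :=
      Real.rpow_le_rpow (Nat.cast_nonneg _) (by exact_mod_cast hTN z hz) hα
    exact h5.trans h4

/-! ## Packing -/

/-- A packing bound: separated points in an interval. -/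
lemma pack {ι : Type*} (I : Finset ι) (d ρ : ι → ℝ) (x0 X R : ℝ)
    (hd1 : ∀ i ∈ I, x0 ≤ d i) (hd2 : ∀ i ∈ I, d i ≤ x0 + X)
    (hρ : ∀ i ∈ I, 0 ≤ ρ i) (hR : ∀ i ∈ I, ρ i ≤ R) (hXR : 0 ≤ X + R)
    (hsep : ∀ i ∈ I, ∀ j ∈ I, i ≠ j → ρ i ≤ |d i - d j|) :
    ∑ i ∈ I, ρ i ≤ X + R := by
  classical
  have hdisj : Set.PairwiseDisjoint (I : Set ι)
      (fun i => Set.Ioo (d i - ρ i / 2) (d i + ρ i / 2)) := by
    intro i hi j hj hij
    have h1 := hsep i hi j hj hij
    have h2 := hsep j hj i hi hij.symm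
    rw [abs_sub_comm] at h2
    rw [Function.onFun, Set.disjoint_left]
    intro x hx1 hx2
    simp only [Set.mem_Ioo] at hx1 hx2
    rcases le_total (d i) (d j) with h3 | h3
    · rw [abs_of_nonpos (by linarith)] at h1 h2
      linarith [hx1.2, hx2.1]
    · rw [abs_of_nonneg (by linarith)] at h1 h2
      linarith [hx1.1, hx2.2]
  have hmeas : MeasureTheory.volume (⋃ i ∈ I, Set.Ioo (d i - ρ i / 2) (d i + ρ i / 2)) =
      ∑ i ∈ I, MeasureTheory.volume (Set.Ioo (d i - ρ i / 2) (d i + ρ i / 2)) :=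
    MeasureTheory.measure_biUnion_finset hdisj (fun i _ => measurableSet_Ioo)
  have hsub : (⋃ i ∈ I, Set.Ioo (d i - ρ i / 2) (d i + ρ i / 2)) ⊆
      Set.Icc (x0 - R / 2) (x0 + X + R / 2) := by
    intro x hx
    simp only [Set.mem_iUnion] at hx
    obtain ⟨i, hi, hx⟩ := hx
    have h1 := hd1 i hi
    have h2 := hd2 i hi
    have h3 := hR i hi
    simp only [Set.mem_Ioo] at hx
    simp only [Set.mem_Icc]
    constructor <;> linarith [hx.1, hx.2]
  have hle := MeasureTheory.measure_mono (μ := MeasureTheory.volume) hsub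
  rw [hmeas, Real.volume_Icc] at hle
  have hsum : ∑ i ∈ I, MeasureTheory.volume (Set.Ioo (d i - ρ i / 2) (d i + ρ i / 2)) =
      ENNReal.ofReal (∑ i ∈ I, ρ i) := by
    rw [ENNReal.ofReal_sum_of_nonneg hρ]
    refine Finset.sum_congr rfl fun i _ => ?_
    rw [Real.volume_Ioo]
    congr 1
    ring
  rw [hsum, ENNReal.ofReal_le_ofReal_iff (by linarith)] at hle
  linarith


/-! ## Blocks -/

open Classical in
/-- the elements of `S` in `(u, v]` -/
noncomputable def blk (S : Set ℕ) (u v : ℕ) : Finset ℕ := (Finset.Ioc u v).filter (· ∈ S)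

lemma mem_blk {S : Set ℕ} {u v x : ℕ} : x ∈ blk S u v ↔ (u < x ∧ x ≤ v) ∧ x ∈ S := by
  classical
  unfold blk
  rw [Finset.mem_filter, Finset.mem_Ioc]

lemma count_eq (S : Set ℕ) (n : ℕ) : count S n = (blk S 0 n).card := by
  unfold count
  rw [← Set.ncard_coe_finset]
  congr 1
  ext x
  simp only [Set.mem_inter_iff, Set.mem_Icc, Finset.mem_coe, mem_blk]
  constructor
  · rintro ⟨h1, h2, h3⟩
    exact ⟨⟨by omega, h3⟩, h1⟩
  · rintro ⟨⟨h1, h2⟩, h3⟩
    exact ⟨h3, by omega, h2⟩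

lemma count_add (S : Set ℕ) {u v : ℕ} (huv : u ≤ v) :
    count S v = count S u + (blk S u v).card := by
  classical
  rw [count_eq, count_eq, ← Finset.card_union_of_disjoint]
  · congr 1
    ext x
    simp only [Finset.mem_union, mem_blk]
    constructor
    · rintro ⟨⟨h1, h2⟩, h3⟩
      rcases le_or_gt x u with h4 | h4
      · exact Or.inl ⟨⟨h1, h4⟩, h3⟩
      · exact Or.inr ⟨⟨h4, h2⟩, h3⟩
    · rintro (⟨⟨h1, h2⟩, h3⟩ | ⟨⟨h1, h2⟩, h3⟩)
      · exact ⟨⟨h1, by omega⟩, h3⟩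
      · exact ⟨⟨by omega, h2⟩, h3⟩
  · rw [Finset.disjoint_left]
    intro x hx1 hx2
    rw [mem_blk] at hx1 hx2
    omega

lemma sg_nonneg (T : Finset ℕ) : 0 ≤ sg T := Nat.cast_nonneg _

lemma sg_empty : sg ∅ = 0 := by simp [sg]

lemma sg_le (T : Finset ℕ) (v : ℕ) (hT : ∀ x ∈ T, x ≤ v) : sg T ≤ T.card * v := by
  unfold sg
  have := Finset.sum_le_card_nsmul T (fun x => x) v hT
  rw [smul_eq_mul] at this
  exact_mod_cast this

lemma blk_choose_le {α : ℝ} (hα0 : 0 ≤ α) (hα1 : α < 1) {h : ℕ} {S : Set ℕ}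
    (hS : IsStrongB α h S) (i : ℕ) :
    ((blk S (2 ^ i) (2 ^ (i + 1))).card.choose h : ℝ) * (((2 ^ i : ℕ) : ℝ) ^ α) ≤
      (2 * h + 1) * 2 ^ i := by
  set U := blk S (2 ^ i) (2 ^ (i + 1)) with hU
  have hle : (((2 ^ i : ℕ) : ℝ) ^ α) ≤ 2 ^ i := by
    have := Real.rpow_le_self_of_one_le (x := ((2 ^ i : ℕ) : ℝ)) (y := α)
      (by exact_mod_cast Nat.one_le_two_pow) hα1.le
    simpa using this
  have key := pack (Finset.powersetCard h U) sg (fun _ => (((2 ^ i : ℕ) : ℝ) ^ α)) 0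
    (h * 2 ^ (i + 1)) (2 ^ i) (fun T _ => sg_nonneg T) (by
      intro T hT
      rw [Finset.mem_powersetCard] at hT
      have := sg_le T (2 ^ (i + 1)) (fun x hx => (mem_blk.1 (hT.1 hx)).1.2)
      rw [hT.2] at this
      rw [zero_add]
      exact_mod_cast this) (fun _ _ => by positivity) (fun _ _ => hle) (by positivity) (by
      intro T hT V hV hne
      rw [Finset.mem_powersetCard] at hT hV
      have h3 : ¬ T ⊆ V := fun h3 => hne (Finset.eq_of_subset_of_card_le h3 (by omega))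
      obtain ⟨z, hz, hz2⟩ := Finset.not_subset.1 h3
      have h4 := sep_pair hS T ∅ V ∅ (fun x hx => (mem_blk.1 (hT.1 hx)).2) (by simp)
        (fun x hx => (mem_blk.1 (hV.1 hx)).2) (by simp)
        (by rw [hT.2, hV.2]) (by rw [hT.2]; simp) z hz (by simp) hz2
      have h5 : (((2 ^ i : ℕ) : ℝ) ^ α) ≤ (z : ℝ) ^ α := by
        apply Real.rpow_le_rpow (Nat.cast_nonneg _) _ hα0
        exact_mod_cast (mem_blk.1 (hT.1 hz)).1.1.le
      refine h5.trans (h4.trans (le_of_eq ?_))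
      rw [sg_empty, sub_zero, sub_zero])
  rw [Finset.sum_const, Finset.card_powersetCard, nsmul_eq_mul] at key
  refine key.trans (le_of_eq ?_)
  ring

lemma le_of_pow_le_mul_pow {h : ℕ} (hh : 1 ≤ h) {y K z : ℝ} (hK : 1 ≤ K)
    (hz : 0 ≤ z) (hle : y ^ h ≤ K * z ^ h) : y ≤ K * z := by
  have h1 : K ≤ K ^ h := by
    calc K = K ^ 1 := (pow_one K).symm
      _ ≤ K ^ h := pow_le_pow_right₀ hK hh
  have h2 : y ^ h ≤ (K * z) ^ h := by
    rw [mul_pow]
    exact hle.trans (mul_le_mul_of_nonneg_right h1 (by positivity))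
  exact le_of_pow_le_pow_left₀ (by omega) (by positivity) h2

lemma count_upper {α : ℝ} (hα0 : 0 ≤ α) (hα1 : α < 1) {h : ℕ} (hh : 1 ≤ h) {S : Set ℕ}
    (hS : IsStrongB α h S) :
    ∃ C : ℝ, 1 ≤ C ∧ ∀ i : ℕ, (count S (2 ^ i) : ℝ) ≤ C * ((2 : ℝ) ^ ((1 - α) / h)) ^ i := by
  set p : ℝ := (2 : ℝ) ^ ((1 - α) / h) with hp
  have hh0 : (0 : ℝ) < h := by exact_mod_cast hh
  have hp1 : 1 < p := by
    apply Real.one_lt_rpow (by norm_num)
    apply div_pos (by linarith) hh0
  set K : ℝ := (h.factorial : ℝ) * (2 * h + 1) with hK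
  have hK1 : 1 ≤ K := by
    have h1 : (1 : ℝ) ≤ h.factorial := by exact_mod_cast Nat.one_le_iff_ne_zero.2 h.factorial_ne_zero
    have h2 : (1 : ℝ) ≤ 2 * h + 1 := by linarith
    calc (1 : ℝ) = 1 * 1 := by ring
      _ ≤ K := mul_le_mul h1 h2 (by norm_num) (by linarith)
  have hblk : ∀ i : ℕ, ((blk S (2 ^ i) (2 ^ (i + 1))).card : ℝ) ≤ (h + K) * p ^ i := by
    intro i
    have h1 := blk_choose_le hα0 hα1 hS i
    set n := (blk S (2 ^ i) (2 ^ (i + 1))).card with hn
    have h2 := Nat.pow_le_choose (α := ℝ) h n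
    have hpow : (((2 ^ i : ℕ) : ℝ) ^ α) * (p ^ i) ^ h = 2 ^ i := by
      have e1 : (((2 ^ i : ℕ) : ℝ) ^ α) = ((2 : ℝ) ^ α) ^ i := by
        push_cast
        rw [← Real.rpow_natCast, ← Real.rpow_mul (by norm_num), mul_comm, Real.rpow_mul (by norm_num),
          Real.rpow_natCast]
      have e2 : (p ^ i) ^ h = ((2 : ℝ) ^ (1 - α)) ^ i := by
        rw [← pow_mul, mul_comm, pow_mul, hp, ← Real.rpow_natCast ((2 : ℝ) ^ ((1 - α) / h)) h,
          ← Real.rpow_mul (by norm_num)]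
        congr 2
        field_simp
      rw [e1, e2, ← mul_pow, ← Real.rpow_add (by norm_num)]
      simp
    have hposα : 0 < (((2 ^ i : ℕ) : ℝ) ^ α) := by positivity
    have h3 : (n.choose h : ℝ) ≤ (2 * h + 1) * (p ^ i) ^ h := by
      have : (n.choose h : ℝ) * (((2 ^ i : ℕ) : ℝ) ^ α) ≤
          ((2 * h + 1) * (p ^ i) ^ h) * (((2 ^ i : ℕ) : ℝ) ^ α) := by
        calc _ ≤ (2 * (h : ℝ) + 1) * 2 ^ i := h1
          _ = (2 * (h : ℝ) + 1) * ((((2 ^ i : ℕ) : ℝ) ^ α) * (p ^ i) ^ h) := by rw [hpow]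
          _ = _ := by ring
      exact le_of_mul_le_mul_right this hposα
    have h4 : (((n + 1 - h : ℕ) : ℝ)) ^ h ≤ K * (p ^ i) ^ h := by
      have h5 : (((n + 1 - h : ℕ) : ℝ)) ^ h / h.factorial ≤ (2 * h + 1) * (p ^ i) ^ h := by
        refine le_trans ?_ h3
        exact_mod_cast h2
      rw [div_le_iff₀ (by exact_mod_cast Nat.factorial_pos h)] at h5
      calc _ ≤ _ := h5
        _ = _ := by rw [hK]; ring
    have h5 := le_of_pow_le_mul_pow hh hK1 (by positivity) h4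
    have h6 : (n : ℝ) ≤ ((n + 1 - h : ℕ) : ℝ) + h := by
      have : n ≤ (n + 1 - h) + h := by omega
      exact_mod_cast this
    have h7 : (h : ℝ) ≤ h * p ^ i := by
      have : (1 : ℝ) ≤ p ^ i := one_le_pow₀ hp1.le
      nlinarith
    calc (n : ℝ) ≤ K * p ^ i + h * p ^ i := by linarith
      _ = _ := by ring
  refine ⟨1 + (h + K) / (p - 1), ?_, ?_⟩
  · have : 0 ≤ (h + K) / (p - 1) := div_nonneg (by linarith) (by linarith)
    linarith
  · intro i
    induction i with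
    | zero =>
      have h1 : count S 1 ≤ 1 := by
        rw [count_eq]
        have : blk S 0 1 ⊆ {1} := by
          intro x hx
          rw [mem_blk] at hx
          rw [Finset.mem_singleton]
          omega
        simpa using Finset.card_le_card this
      have h2 : (count S 1 : ℝ) ≤ 1 := by exact_mod_cast h1
      have : 0 ≤ (h + K) / (p - 1) := div_nonneg (by linarith) (by linarith)
      simp only [pow_zero, mul_one]
      linarith
    | succ i ih =>
      rw [count_add S (Nat.pow_le_pow_right (by norm_num) (Nat.le_succ i) : 2 ^ i ≤ 2 ^ (i + 1))]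
      push_cast
      have h1 := hblk i
      have h2 : (1 + (h + K) / (p - 1)) * p ^ (i + 1) =
          (1 + (h + K) / (p - 1)) * p ^ i + ((p - 1) + (h + K)) * p ^ i := by
        have : p - 1 ≠ 0 := by linarith
        field_simp
        ring
      rw [h2]
      have h3 : (0 : ℝ) ≤ (p - 1) * p ^ i := by
        apply mul_nonneg (by linarith) (by positivity)
      linarith

/-- block structure of a dense strong set -/
lemma blocks {α : ℝ} (hα0 : 0 ≤ α) (hα1 : α < 1) {h : ℕ} (hh : 1 ≤ h) {S : Set ℕ}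
    (hS : IsStrongB α h S) (c : ℝ) (hc : 0 < c) (n0 : ℕ)
    (hlow : ∀ n ≥ n0, c * (n : ℝ) ^ ((1 - α) / h) ≤ count S n) :
    ∃ (b : ℕ) (a q C2 : ℝ) (j0 : ℕ), 1 ≤ b ∧ 1 ≤ a ∧ 1 < q ∧ 1 ≤ C2 ∧
      ((2 : ℝ) ^ b = a * q ^ h) ∧ (∀ j : ℕ, (((2 ^ b) ^ j : ℕ) : ℝ) ^ α = a ^ j) ∧
      ∀ j ≥ j0, q ^ j ≤ ((blk S ((2 ^ b) ^ j) ((2 ^ b) ^ (j + 1))).card : ℝ) ∧
        ((blk S ((2 ^ b) ^ j) ((2 ^ b) ^ (j + 1))).card : ℝ) ≤ C2 * q ^ j := by
  obtain ⟨C, hC1, hC⟩ := count_upper hα0 hα1 hh hS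
  set p : ℝ := (2 : ℝ) ^ ((1 - α) / h) with hp
  have hh0 : (0 : ℝ) < h := by exact_mod_cast hh
  have hp1 : 1 < p := by
    apply Real.one_lt_rpow (by norm_num)
    apply div_pos (by linarith) hh0
  obtain ⟨b0, hb0⟩ := pow_unbounded_of_one_lt ((C + 1) / c) hp1
  obtain ⟨b, hb⟩ : ∃ b, b = b0 + 1 := ⟨_, rfl⟩
  have hb1 : 1 ≤ b := by omega
  have hpb : (C + 1) / c < p ^ b := by
    refine hb0.trans_le ?_
    exact pow_le_pow_right₀ hp1.le (by omega)
  have hppow : p ^ h = (2 : ℝ) ^ (1 - α) := by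
    rw [hp, ← Real.rpow_natCast ((2 : ℝ) ^ ((1 - α) / h)) h, ← Real.rpow_mul (by norm_num)]
    congr 1
    field_simp
  have hq1 : 1 < p ^ b := one_lt_pow₀ hp1 (by omega)
  have hbase : ∀ (m : ℕ) (e : ℝ), (((2 ^ m : ℕ) : ℝ)) ^ e = ((2 : ℝ) ^ e) ^ m := by
    intro m e
    push_cast
    rw [← Real.rpow_natCast, ← Real.rpow_mul (by norm_num), mul_comm, Real.rpow_mul (by norm_num),
      Real.rpow_natCast]
  refine ⟨b, ((2 : ℝ) ^ α) ^ b, p ^ b, C * p ^ b, n0, hb1, ?_, hq1, ?_, ?_, ?_, ?_⟩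
  · apply one_le_pow₀
    exact Real.one_le_rpow (by norm_num) hα0
  · calc (1 : ℝ) = 1 * 1 := by ring
      _ ≤ C * p ^ b := mul_le_mul hC1 hq1.le (by norm_num) (by linarith)
  · rw [← pow_mul, mul_comm b h, pow_mul, ← mul_pow, hppow, ← Real.rpow_add (by norm_num)]
    simp
  · intro j
    rw [← pow_mul, hbase, ← pow_mul]
  · intro j hj
    have hjn : n0 ≤ (2 ^ b) ^ (j + 1) := by
      calc n0 ≤ j := hj
        _ ≤ 2 ^ j := Nat.lt_two_pow_self.le
        _ ≤ (2 ^ b) ^ (j + 1) := by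
          rw [← pow_mul]
          apply Nat.pow_le_pow_right (by norm_num)
          nlinarith
    have h1 : c * (p ^ b * (p ^ b) ^ j) ≤ (count S ((2 ^ b) ^ (j + 1)) : ℝ) := by
      have h1 := hlow _ hjn
      have e : (((2 ^ b) ^ (j + 1) : ℕ) : ℝ) ^ ((1 - α) / h) = p ^ b * (p ^ b) ^ j := by
        rw [← pow_mul, hbase, ← hp, pow_mul, pow_succ]
        ring
      rw [e] at h1
      exact h1
    have h2 : (count S ((2 ^ b) ^ j) : ℝ) ≤ C * (p ^ b) ^ j := by
      have := hC (b * j)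
      rw [pow_mul, pow_mul] at this
      exact this
    have h3 : (count S ((2 ^ b) ^ (j + 1)) : ℝ) ≤ C * (p ^ b * (p ^ b) ^ j) := by
      have := hC (b * (j + 1))
      rw [pow_mul, pow_mul, pow_succ (p ^ b)] at this
      rw [mul_comm (p ^ b)]
      exact this
    have hle : (2 ^ b) ^ j ≤ (2 ^ b) ^ (j + 1) :=
      Nat.pow_le_pow_right (by positivity) (Nat.le_succ j)
    have h4 := count_add S hle
    have h5 : (count S ((2 ^ b) ^ (j + 1)) : ℝ) = count S ((2 ^ b) ^ j) +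
        ((blk S ((2 ^ b) ^ j) ((2 ^ b) ^ (j + 1))).card : ℝ) := by
      exact_mod_cast h4
    have hqj : 0 < (p ^ b) ^ j := by positivity
    have hcq : C + 1 ≤ c * p ^ b := by
      rw [div_lt_iff₀ hc] at hpb
      linarith
    constructor
    · have h6 : (C + 1) * (p ^ b) ^ j ≤ c * (p ^ b * (p ^ b) ^ j) := by
        calc (C + 1) * (p ^ b) ^ j ≤ (c * p ^ b) * (p ^ b) ^ j :=
              mul_le_mul_of_nonneg_right hcq hqj.le
          _ = _ := by ring
      linarith
    · have h7 : (0 : ℝ) ≤ count S ((2 ^ b) ^ j) := Nat.cast_nonneg _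
      calc _ ≤ C * (p ^ b * (p ^ b) ^ j) := by linarith
        _ = _ := by ring


/-! ## Pairs of disjoint sets with close sums -/

/-- ordered pairs of disjoint `s`-subsets of `A` whose sums differ by an element of `(0, L)` -/
def Gs (A : Finset ℕ) (s L : ℕ) : Finset (Finset ℕ × Finset ℕ) :=
  ((powersetCard s A) ×ˢ (powersetCard s A)).filter
    (fun p => Disjoint p.1 p.2 ∧ ∑ x ∈ p.2, x < ∑ x ∈ p.1, x ∧ ∑ x ∈ p.1, x < ∑ x ∈ p.2, x + L)

/-- the same without disjointness -/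
def Gall (A : Finset ℕ) (s L : ℕ) : Finset (Finset ℕ × Finset ℕ) :=
  ((powersetCard s A) ×ˢ (powersetCard s A)).filter
    (fun p => ∑ x ∈ p.2, x < ∑ x ∈ p.1, x ∧ ∑ x ∈ p.1, x < ∑ x ∈ p.2, x + L)

lemma coll {ι : Type*} [DecidableEq ι] (s : Finset ι) (f : ι → ℕ) (W : ℕ)
    (hf : ∀ i ∈ s, f i < W) :
    s.card ^ 2 ≤ W * ((s ×ˢ s).filter (fun p => f p.1 = f p.2)).card := by
  have h1 : s.card = ∑ w ∈ range W, (s.filter (fun i => f i = w)).card :=
    Finset.card_eq_sum_card_fiberwise (fun i hi => by simpa using hf i hi)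
  have h2 : ((s ×ˢ s).filter (fun p => f p.1 = f p.2)).card =
      ∑ w ∈ range W, (s.filter (fun i => f i = w)).card ^ 2 := by
    rw [Finset.card_eq_sum_card_fiberwise (f := fun p => f p.1) (t := range W)]
    · refine Finset.sum_congr rfl fun w _ => ?_
      rw [sq, ← Finset.card_product]
      congr 1
      ext p
      simp only [Finset.mem_filter, Finset.mem_product]
      constructor
      · rintro ⟨⟨⟨h1, h2⟩, h3⟩, h4⟩
        exact ⟨⟨h1, h4⟩, h2, by rw [← h3]; exact h4⟩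
      · rintro ⟨⟨h1, h2⟩, h3, h4⟩
        exact ⟨⟨⟨h1, h3⟩, by rw [h2, h4]⟩, h2⟩
    · intro p hp
      simp only [Finset.coe_filter, Finset.mem_product, Set.mem_ofPred_eq] at hp
      simpa using hf _ hp.1.1
  rw [h2, h1]
  have := sq_sum_le_card_mul_sum_sq (s := range W)
    (f := fun w => (s.filter (fun i => f i = w)).card)
  rwa [Finset.card_range] at this

/-- sums of distinct `k`-subsets are distinct -/
lemma sums_ne {α : ℝ} (hα : 0 ≤ α) {h k : ℕ} (hk : k ≤ h) {S : Set ℕ} (hS : IsStrongB α h S)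
    (A : Finset ℕ) (hA : ∀ x ∈ A, x ∈ S) (hA1 : ∀ x ∈ A, 1 ≤ x) (T V : Finset ℕ)
    (hT : T ∈ powersetCard k A) (hV : V ∈ powersetCard k A) (hne : T ≠ V) :
    ∑ x ∈ T, x ≠ ∑ x ∈ V, x := by
  rw [Finset.mem_powersetCard] at hT hV
  intro heq
  have h3 : ¬ T ⊆ V := fun h3 => hne (Finset.eq_of_subset_of_card_le h3 (by omega))
  obtain ⟨z, hz, hz2⟩ := Finset.not_subset.1 h3
  have h4 := sep_pair hS T ∅ V ∅ (fun x hx => hA x (hT.1 hx)) (by simp)
    (fun x hx => hA x (hV.1 hx)) (by simp)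
    (by rw [hT.2, hV.2]) (by rw [hT.2]; simpa using hk) z hz (by simp) hz2
  have h5 : (1 : ℝ) ≤ (z : ℝ) ^ α := by
    apply Real.one_le_rpow _ hα
    exact_mod_cast hA1 z (hT.1 hz)
  have h6 : sg T = sg V := by unfold sg; rw [heq]
  rw [h6, sg_empty] at h4
  simp at h4
  linarith

lemma offdiag {α : ℝ} (hα : 0 ≤ α) {h k : ℕ} (hk : k ≤ h) {S : Set ℕ} (hS : IsStrongB α h S)
    (A : Finset ℕ) (hA : ∀ x ∈ A, x ∈ S) (hA1 : ∀ x ∈ A, 1 ≤ x) (L W : ℕ) (hL : 0 < L)
    (hW : ∀ T ∈ powersetCard k A, (∑ x ∈ T, x) / L < W) :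
    (A.card.choose k) ^ 2 ≤ W * (A.card.choose k + 2 * (Gall A k L).card) := by
  classical
  have h1 := coll (powersetCard k A) (fun T => (∑ x ∈ T, x) / L) W hW
  rw [Finset.card_powersetCard] at h1
  refine h1.trans (Nat.mul_le_mul_left _ ?_)
  have hsub : ((powersetCard k A) ×ˢ (powersetCard k A)).filter
      (fun p => (∑ x ∈ p.1, x) / L = (∑ x ∈ p.2, x) / L) ⊆
      ((powersetCard k A).image (fun T => (T, T))) ∪
        (Gall A k L ∪ (Gall A k L).image Prod.swap) := by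
    rintro ⟨T, V⟩ hp
    rw [Finset.mem_filter, Finset.mem_product] at hp
    obtain ⟨⟨hT, hV⟩, heq⟩ := hp
    simp only at hT hV heq
    rw [Finset.mem_union, Finset.mem_union]
    by_cases hTV : T = V
    · left
      rw [Finset.mem_image]
      exact ⟨T, hT, by rw [hTV]⟩
    · right
      have hne := sums_ne hα hk hS A hA hA1 T V hT hV hTV
      have e1 := Nat.div_add_mod (∑ x ∈ T, x) L
      have e2 := Nat.div_add_mod (∑ x ∈ V, x) L
      have e3 := Nat.mod_lt (∑ x ∈ T, x) hL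
      have e4 := Nat.mod_lt (∑ x ∈ V, x) hL
      rw [heq] at e1
      rcases lt_or_gt_of_ne hne with h2 | h2
      · right
        rw [Finset.mem_image]
        refine ⟨(V, T), ?_, rfl⟩
        unfold Gall
        rw [Finset.mem_filter, Finset.mem_product]
        refine ⟨⟨hV, hT⟩, h2, ?_⟩
        show ∑ x ∈ V, x < ∑ x ∈ T, x + L
        omega
      · left
        unfold Gall
        rw [Finset.mem_filter, Finset.mem_product]
        refine ⟨⟨hT, hV⟩, h2, ?_⟩
        show ∑ x ∈ T, x < ∑ x ∈ V, x + L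
        omega
  refine (Finset.card_le_card hsub).trans ?_
  refine (Finset.card_union_le _ _).trans ?_
  have h2 : ((powersetCard k A).image (fun T => (T, T))).card ≤ A.card.choose k := by
    refine Finset.card_image_le.trans ?_
    rw [Finset.card_powersetCard]
  have h3 : (Gall A k L ∪ (Gall A k L).image Prod.swap).card ≤ 2 * (Gall A k L).card := by
    refine (Finset.card_union_le _ _).trans ?_
    have : ((Gall A k L).image Prod.swap).card ≤ (Gall A k L).card := Finset.card_image_le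
    omega
  omega

lemma Gall_le (A : Finset ℕ) (k L : ℕ) :
    (Gall A k L).card ≤ (Gs A k L).card +
      ∑ r ∈ Finset.Ico 1 k, A.card.choose r * (Gs A (k - r) L).card := by
  classical
  have hsub : Gall A k L ⊆ Gs A k L ∪ (Finset.Ico 1 k).biUnion (fun r =>
      ((powersetCard r A) ×ˢ (Gs A (k - r) L)).image
        (fun p => (p.1 ∪ p.2.1, p.1 ∪ p.2.2))) := by
    rintro ⟨T, V⟩ hp
    unfold Gall at hp
    rw [Finset.mem_filter, Finset.mem_product] at hp
    obtain ⟨⟨hT, hV⟩, h1, h2⟩ := hp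
    simp only at hT hV h1 h2
    rw [Finset.mem_union]
    by_cases hd : Disjoint T V
    · left
      unfold Gs
      rw [Finset.mem_filter, Finset.mem_product]
      exact ⟨⟨hT, hV⟩, hd, h1, h2⟩
    · right
      rw [Finset.mem_powersetCard] at hT hV
      have hcard1 : (T \ V).card + (T ∩ V).card = T.card := Finset.card_sdiff_add_card_inter T V
      have hcard2 : (V \ T).card + (T ∩ V).card = V.card := by
        rw [Finset.inter_comm]
        exact Finset.card_sdiff_add_card_inter V T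
      have hpos : 0 < (T ∩ V).card := by
        rw [Finset.card_pos]
        rw [Finset.disjoint_iff_inter_eq_empty] at hd
        exact Finset.nonempty_iff_ne_empty.2 hd
      have hlt : (T ∩ V).card < k := by
        by_contra hge
        have h3 : (T \ V).card = 0 := by omega
        have h4 : (V \ T).card = 0 := by omega
        rw [Finset.card_eq_zero, Finset.sdiff_eq_empty_iff_subset] at h3 h4
        have : T = V := Finset.Subset.antisymm h3 h4
        rw [this] at h1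
        exact lt_irrefl _ h1
      rw [Finset.mem_biUnion]
      refine ⟨(T ∩ V).card, ?_, ?_⟩
      · rw [Finset.mem_Ico]
        exact ⟨hpos, hlt⟩
      · rw [Finset.mem_image]
        refine ⟨(T ∩ V, (T \ V, V \ T)), ?_, ?_⟩
        · rw [Finset.mem_product]
          have s1 : ∑ x ∈ T \ V, x + ∑ x ∈ T ∩ V, x = ∑ x ∈ T, x := by
            rw [← Finset.sum_union, Finset.sdiff_union_inter]
            exact (Finset.disjoint_sdiff_inter T V)
          have s2 : ∑ x ∈ V \ T, x + ∑ x ∈ T ∩ V, x = ∑ x ∈ V, x := by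
            rw [Finset.inter_comm, ← Finset.sum_union, Finset.sdiff_union_inter]
            exact (Finset.disjoint_sdiff_inter V T)
          refine ⟨?_, ?_⟩
          · rw [Finset.mem_powersetCard]
            exact ⟨Finset.inter_subset_left.trans hT.1, rfl⟩
          · unfold Gs
            rw [Finset.mem_filter, Finset.mem_product, Finset.mem_powersetCard,
              Finset.mem_powersetCard]
            refine ⟨⟨⟨Finset.sdiff_subset.trans hT.1, ?_⟩,
              ⟨Finset.sdiff_subset.trans hV.1, ?_⟩⟩, ?_, ?_, ?_⟩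
            · show (T \ V).card = _
              omega
            · show (V \ T).card = _
              omega
            · exact disjoint_sdiff_sdiff
            · show ∑ x ∈ V \ T, x < ∑ x ∈ T \ V, x
              omega
            · show ∑ x ∈ T \ V, x < ∑ x ∈ V \ T, x + L
              omega
        · show ((T ∩ V) ∪ (T \ V), (T ∩ V) ∪ (V \ T)) = (T, V)
          congr 1
          · rw [Finset.union_comm]
            exact Finset.sdiff_union_inter T V
          · rw [Finset.union_comm, Finset.inter_comm]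
            exact Finset.sdiff_union_inter V T
  refine (Finset.card_le_card hsub).trans ((Finset.card_union_le _ _).trans ?_)
  apply Nat.add_le_add_left
  refine Finset.card_biUnion_le.trans ?_
  refine Finset.sum_le_sum fun r _ => ?_
  refine Finset.card_image_le.trans ?_
  rw [Finset.card_product, Finset.card_powersetCard]

lemma sg_union {T V : Finset ℕ} (h : Disjoint T V) : sg (T ∪ V) = sg T + sg V := by
  unfold sg
  rw [Finset.sum_union h]
  push_cast
  ring

lemma mem_Gs {A : Finset ℕ} {s L : ℕ} {p : Finset ℕ × Finset ℕ} :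
    p ∈ Gs A s L ↔ ((p.1 ⊆ A ∧ p.1.card = s) ∧ (p.2 ⊆ A ∧ p.2.card = s)) ∧
      Disjoint p.1 p.2 ∧ ∑ x ∈ p.2, x < ∑ x ∈ p.1, x ∧ ∑ x ∈ p.1, x < ∑ x ∈ p.2, x + L := by
  unfold Gs
  rw [Finset.mem_filter, Finset.mem_product, Finset.mem_powersetCard, Finset.mem_powersetCard]

lemma Gs_bound {α : ℝ} (hα0 : 0 ≤ α) (hα1 : α < 1) {h k : ℕ} (hk : k + k ≤ h) {S : Set ℕ}
    (hS : IsStrongB α h S) (A A' A1 A2 : Finset ℕ) (hA : ∀ x ∈ A, x ∈ S)
    (hA' : ∀ x ∈ A', x ∈ S) (hlt : ∀ x ∈ A, ∀ y ∈ A', y < x) (h1 : A1 ⊆ A') (h2 : A2 ⊆ A')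
    (h12 : Disjoint A1 A2) (N L : ℕ) (hN : 1 ≤ N) (hNL : N ≤ L) (hNA' : ∀ x ∈ A', N ≤ x)
    (hNA : ∀ x ∈ A, N ≤ x)
    (hLA' : ∀ x ∈ A', x ≤ L) (s r : ℕ) (hsr : s + r = k) :
    ((Gs A s L).card : ℝ) * ((A1.card.choose r : ℝ) * A2.card.choose r) * (N : ℝ) ^ α ≤
      (2 * k + 2) * L := by
  classical
  have hAA' : Disjoint A A' := by
    rw [Finset.disjoint_left]
    intro x hx hx'
    exact lt_irrefl _ (hlt x hx x hx')
  have hNα : (N : ℝ) ^ α ≤ L := by
    have := Real.rpow_le_self_of_one_le (x := (N : ℝ)) (y := α) (by exact_mod_cast hN) hα1.le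
    exact this.trans (by exact_mod_cast hNL)
  have key := pack ((Gs A s L) ×ˢ ((powersetCard r A1) ×ˢ (powersetCard r A2)))
    (fun p => sg (p.1.1 ∪ p.2.1) - sg (p.1.2 ∪ p.2.2)) (fun _ => (N : ℝ) ^ α)
    (-(r * L)) ((2 * r + 1) * L) L ?_ ?_ (fun _ _ => by positivity) (fun _ _ => hNα)
    (by positivity) ?_
  · rw [Finset.sum_const, nsmul_eq_mul, Finset.card_product, Finset.card_product,
      Finset.card_powersetCard, Finset.card_powersetCard] at key
    push_cast at key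
    refine key.trans ?_
    have hr : (r : ℝ) ≤ k := by exact_mod_cast (by omega : r ≤ k)
    have hL0 : (0 : ℝ) ≤ L := Nat.cast_nonneg _
    nlinarith
  · rintro ⟨⟨P, P'⟩, ⟨R, R'⟩⟩ hp
    rw [Finset.mem_product, Finset.mem_product, mem_Gs, Finset.mem_powersetCard,
      Finset.mem_powersetCard] at hp
    obtain ⟨⟨⟨hP, hP'⟩, hd, hs1, hs2⟩, hR, hR'⟩ := hp
    simp only at hP hP' hd hs1 hs2 hR hR' ⊢
    have d1 : Disjoint P R := Finset.disjoint_of_subset_left hP.1
      (Finset.disjoint_of_subset_right (hR.1.trans h1) hAA')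
    have d2 : Disjoint P' R' := Finset.disjoint_of_subset_left hP'.1
      (Finset.disjoint_of_subset_right (hR'.1.trans h2) hAA')
    rw [sg_union d1, sg_union d2]
    have e1 : sg P' ≤ sg P := by
      unfold sg; exact_mod_cast hs1.le
    have e2 := sg_nonneg R
    have e3 := sg_le R' L (fun x hx => hLA' x (h2 (hR'.1 hx)))
    rw [hR'.2] at e3
    linarith
  · rintro ⟨⟨P, P'⟩, ⟨R, R'⟩⟩ hp
    rw [Finset.mem_product, Finset.mem_product, mem_Gs, Finset.mem_powersetCard,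
      Finset.mem_powersetCard] at hp
    obtain ⟨⟨⟨hP, hP'⟩, hd, hs1, hs2⟩, hR, hR'⟩ := hp
    simp only at hP hP' hd hs1 hs2 hR hR' ⊢
    have d1 : Disjoint P R := Finset.disjoint_of_subset_left hP.1
      (Finset.disjoint_of_subset_right (hR.1.trans h1) hAA')
    have d2 : Disjoint P' R' := Finset.disjoint_of_subset_left hP'.1
      (Finset.disjoint_of_subset_right (hR'.1.trans h2) hAA')
    rw [sg_union d1, sg_union d2]
    have e1 : sg P ≤ sg P' + L := by
      unfold sg; exact_mod_cast hs2.le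
    have e2 := sg_nonneg R'
    have e3 := sg_le R L (fun x hx => hLA' x (h1 (hR.1 hx)))
    rw [hR.2] at e3
    linarith
  · rintro ⟨⟨P, P'⟩, ⟨R, R'⟩⟩ hp ⟨⟨Q, Q'⟩, ⟨V, V'⟩⟩ hq hne
    rw [Finset.mem_product, Finset.mem_product, mem_Gs, Finset.mem_powersetCard,
      Finset.mem_powersetCard] at hp hq
    obtain ⟨⟨⟨hP, hP'⟩, hd, hs1, hs2⟩, hR, hR'⟩ := hp
    obtain ⟨⟨⟨hQ, hQ'⟩, hdq, hs1q, hs2q⟩, hV, hV'⟩ := hq
    simp only at hP hP' hd hs1 hs2 hR hR' hQ hQ' hdq hs1q hs2q hV hV' ⊢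
    have dis : ∀ {X Y : Finset ℕ}, X ⊆ A → Y ⊆ A' → Disjoint X Y := fun hX hY =>
      Finset.disjoint_of_subset_left hX (Finset.disjoint_of_subset_right hY hAA')
    have cardU : ∀ {X Y : Finset ℕ}, X ⊆ A → Y ⊆ A' → X.card = s → Y.card = r →
        (X ∪ Y).card = k := by
      intro X Y hX hY cX cY
      rw [Finset.card_union_of_disjoint (dis hX hY), cX, cY, hsr]
    have memU : ∀ {X Y : Finset ℕ}, X ⊆ A → Y ⊆ A' → ∀ x ∈ X ∪ Y, x ∈ S := by
      intro X Y hX hY x hx
      rcases Finset.mem_union.1 hx with h3 | h3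
      · exact hA x (hX h3)
      · exact hA' x (hY h3)
    have geU : ∀ {X Y : Finset ℕ}, X ⊆ A → Y ⊆ A' → ∀ x ∈ X ∪ Y, N ≤ x := by
      intro X Y hX hY x hx
      rcases Finset.mem_union.1 hx with h3 | h3
      · exact hNA x (hX h3)
      · exact hNA' x (hY h3)
    have hR1 := hR.1.trans h1
    have hR2 := hR'.1.trans h2
    have hV1 := hV.1.trans h1
    have hV2 := hV'.1.trans h2
    refine sep_ne hα0 hS (P ∪ R) (P' ∪ R') (Q ∪ V) (Q' ∪ V')
      (memU hP.1 hR1) (memU hP'.1 hR2) (memU hQ.1 hV1) (memU hQ'.1 hV2)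
      (cardU hP.1 hR1 hP.2 hR.2) (cardU hP'.1 hR2 hP'.2 hR'.2)
      (cardU hQ.1 hV1 hQ.2 hV.2) (cardU hQ'.1 hV2 hQ'.2 hV'.2) hk ?_ ?_ N
      (geU hP.1 hR1) (geU hP'.1 hR2)
    · rw [Finset.disjoint_union_left, Finset.disjoint_union_right, Finset.disjoint_union_right]
      refine ⟨⟨hd, dis hP.1 hR2⟩, ⟨(dis hP'.1 hR1).symm, ?_⟩⟩
      exact Finset.disjoint_of_subset_left hR.1 (Finset.disjoint_of_subset_right hR'.1 h12)
    · rintro ⟨e1, e2⟩
      apply hne
      have rec1 : ∀ {X Y : Finset ℕ}, X ⊆ A → Y ⊆ A' → (X ∪ Y) ∩ A = X := by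
        intro X Y hX hY
        ext x
        simp only [Finset.mem_inter, Finset.mem_union]
        constructor
        · rintro ⟨h3 | h3, h4⟩
          · exact h3
          · exact absurd (hY h3) (Finset.disjoint_left.1 hAA' h4)
        · intro h3
          exact ⟨Or.inl h3, hX h3⟩
      have rec2 : ∀ {X Y : Finset ℕ}, X ⊆ A → Y ⊆ A' → (X ∪ Y) ∩ A' = Y := by
        intro X Y hX hY
        ext x
        simp only [Finset.mem_inter, Finset.mem_union]
        constructor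
        · rintro ⟨h3 | h3, h4⟩
          · exact absurd h4 (Finset.disjoint_left.1 hAA' (hX h3))
          · exact h3
        · intro h3
          exact ⟨Or.inr h3, hY h3⟩
      have g1 : P = Q := by rw [← rec1 hP.1 hR1, e1, rec1 hQ.1 hV1]
      have g2 : R = V := by rw [← rec2 hP.1 hR1, e1, rec2 hQ.1 hV1]
      have g3 : P' = Q' := by rw [← rec1 hP'.1 hR2, e2, rec1 hQ'.1 hV2]
      have g4 : R' = V' := by rw [← rec2 hP'.1 hR2, e2, rec2 hQ'.1 hV2]
      rw [g1, g2, g3, g4]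


/-! ## The contradiction -/

lemma choose_ge (n r : ℕ) (x : ℝ) (hx : 0 ≤ x) (hn : x + r ≤ n + 1) :
    x ^ r / r.factorial ≤ (n.choose r : ℝ) := by
  have h2 := Nat.pow_le_choose (α := ℝ) r n
  have h3 : x ≤ ((n + 1 - r : ℕ) : ℝ) := by
    have h4 : r ≤ n + 1 := by
      have : (r : ℝ) ≤ (n : ℝ) + 1 := by linarith
      exact_mod_cast this
    rw [Nat.cast_sub h4]
    push_cast
    linarith
  have h5 : x ^ r ≤ ((n + 1 - r : ℕ) : ℝ) ^ r := pow_le_pow_left₀ hx h3 r
  have h6 : (0 : ℝ) < r.factorial := by exact_mod_cast Nat.factorial_pos r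
  calc x ^ r / r.factorial ≤ ((n + 1 - r : ℕ) : ℝ) ^ r / r.factorial := by
        apply div_le_div_of_nonneg_right h5 h6.le
    _ ≤ _ := by exact_mod_cast h2

set_option maxHeartbeats 4000000 in
lemma core {α : ℝ} (hα0 : 0 ≤ α) (hα1 : α < 1) {k : ℕ} (hk : 1 ≤ k) {S : Set ℕ}
    (hS : IsStrongB α (2 * k) S) (c : ℝ) (hc : 0 < c) (n0 : ℕ)
    (hlow : ∀ n ≥ n0, c * (n : ℝ) ^ ((1 - α) / (2 * k : ℕ)) ≤ count S n) : False := by
  classical
  obtain ⟨b, a, q, C2, j0, hb, ha, hq, hC2, hB, hBα, hcard⟩ :=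
    blocks hα0 hα1 (h := 2 * k) (by omega) hS c hc n0 hlow
  obtain ⟨B, hBdef⟩ : ∃ B : ℕ, B = 2 ^ b := ⟨_, rfl⟩
  rw [← hBdef] at hBα hcard
  have hB' : (B : ℝ) = a * q ^ (2 * k) := by rw [hBdef, ← hB]; push_cast; rfl
  have hB2 : 2 ≤ B := by
    rw [hBdef]
    calc 2 = 2 ^ 1 := rfl
      _ ≤ 2 ^ b := Nat.pow_le_pow_right (by norm_num) hb
  obtain ⟨A, hAdef⟩ : ∃ A : ℕ → Finset ℕ, ∀ j, A j = blk S (B ^ j) (B ^ (j + 1)) :=
    ⟨_, fun _ => rfl⟩
  have hAmem : ∀ j, ∀ x ∈ A j, (B ^ j < x ∧ x ≤ B ^ (j + 1)) ∧ x ∈ S := by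
    intro j x hx
    rw [hAdef] at hx
    exact mem_blk.1 hx
  have hAlow : ∀ j ≥ j0, q ^ j ≤ ((A j).card : ℝ) := by
    intro j hj; rw [hAdef]; exact (hcard j hj).1
  have hAup : ∀ j ≥ j0, ((A j).card : ℝ) ≤ C2 * q ^ j := by
    intro j hj; rw [hAdef]; exact (hcard j hj).2
  clear hcard hlow
  have hq0 : 0 < q := by linarith
  have ha0 : 0 < a := by linarith
  have hk0 : (1 : ℝ) ≤ k := by exact_mod_cast hk
  have hBpos : (0 : ℝ) < B := by exact_mod_cast (by omega : 0 < B)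
  have hBj : ∀ j : ℕ, (B : ℝ) ^ j = a ^ j * (q ^ j) ^ (2 * k) := by
    intro j
    rw [hB', mul_pow, ← pow_mul, ← pow_mul, mul_comm j]
  -- constants
  obtain ⟨c4, hc4⟩ : ∃ c4 : ℝ, c4 = 1 / (2 ^ k * k.factorial) := ⟨_, rfl⟩
  obtain ⟨c3, hc3⟩ : ∃ c3 : ℝ, c3 = 1 / (16 ^ k * (k.factorial : ℝ) ^ 2) := ⟨_, rfl⟩
  obtain ⟨C3, hC3⟩ : ∃ C3 : ℝ, C3 = (2 * k + 2) * B / c3 := ⟨_, rfl⟩
  obtain ⟨c5, hc5⟩ : ∃ c5 : ℝ, c5 = c4 ^ 2 / (8 * k) := ⟨_, rfl⟩
  have hfac : (0 : ℝ) < k.factorial := by exact_mod_cast Nat.factorial_pos k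
  have hc4pos : 0 < c4 := by rw [hc4]; positivity
  have hc3pos : 0 < c3 := by rw [hc3]; positivity
  have hC3pos : 0 < C3 := by rw [hC3]; positivity
  have hc5pos : 0 < c5 := by rw [hc5]; positivity
  have hC2pos : 0 < C2 := by linarith
  obtain ⟨D, hD⟩ := pow_unbounded_of_one_lt (a * q) hq
  have hD1 : 1 ≤ D := by
    rcases Nat.eq_zero_or_pos D with h0 | h0
    · subst h0
      rw [pow_zero] at hD
      nlinarith
    · exact h0
  -- choice of `m`
  obtain ⟨m, hm1, hm2⟩ := (((tendsto_pow_atTop_atTop_of_one_lt hq).eventually_ge_atTop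
    (4 * k + 4 * k / c4 + 2 * (k * C2 ^ k * C3) / c5)).and
    (Filter.eventually_ge_atTop (j0 + 1 + ⌈4 * (B : ℝ) / c5⌉₊))).exists
  have hmj0 : j0 ≤ m := by omega
  have hmbig : 4 * (B : ℝ) / c5 < m := by
    have h1 : 4 * (B : ℝ) / c5 ≤ ⌈4 * (B : ℝ) / c5⌉₊ := Nat.le_ceil _
    have h2 : ((⌈4 * (B : ℝ) / c5⌉₊ : ℕ) : ℝ) + 1 ≤ m := by
      exact_mod_cast (by omega : ⌈4 * (B : ℝ) / c5⌉₊ + 1 ≤ m)
    linarith
  obtain ⟨Y, hY⟩ : ∃ Y : ℝ, Y = q ^ (D * m) := ⟨_, rfl⟩
  have hYm : q ^ m ≤ Y := by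
    rw [hY]
    exact pow_le_pow_right₀ hq.le (by nlinarith)
  have hY1 : 1 ≤ Y := by rw [hY]; exact one_le_pow₀ hq.le
  have hY0 : 0 < Y := by linarith
  have p1 : (0 : ℝ) ≤ 4 * k / c4 := by positivity
  have p2 : (0 : ℝ) ≤ 2 * (k * C2 ^ k * C3) / c5 := by positivity
  have hYa : 4 * (k : ℝ) ≤ Y := by
    have : (0 : ℝ) ≤ 4 * k := by positivity
    linarith
  have hYb : 4 * (k : ℝ) ≤ c4 * Y := by
    have h1 : 4 * (k : ℝ) / c4 ≤ Y := by
      have : (0 : ℝ) ≤ 4 * k := by positivity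
      linarith
    rw [div_le_iff₀ hc4pos] at h1
    linarith
  have hYc : k * C2 ^ k * C3 ≤ c5 / 2 * Y := by
    have h1 : 2 * (k * C2 ^ k * C3) / c5 ≤ Y := by
      have : (0 : ℝ) ≤ 4 * k := by positivity
      linarith
    rw [div_le_iff₀ hc5pos] at h1
    linarith
  obtain ⟨l, hl⟩ : ∃ l : ℕ, l = D * m + D * m := ⟨_, rfl⟩
  have hql : q ^ l = Y * Y := by rw [hl, pow_add, hY]
  have hlj0 : j0 ≤ l := by
    rw [hl]
    nlinarith
  have hYql : Y ≤ q ^ l := by rw [hql]; nlinarith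
  obtain ⟨L, hL⟩ : ∃ L : ℕ, L = B ^ (l + 1) := ⟨_, rfl⟩
  have hLpos : 0 < L := by rw [hL]; positivity
  have hLreal : (L : ℝ) = B * (B : ℝ) ^ l := by rw [hL]; push_cast; ring
  -- small scales
  have hsmall : ∀ t ∈ Finset.Icc 1 m, a ^ t * q ^ t ≤ Y := by
    intro t ht
    rw [Finset.mem_Icc] at ht
    calc a ^ t * q ^ t = (a * q) ^ t := (mul_pow _ _ _).symm
      _ ≤ (q ^ D) ^ t := pow_le_pow_left₀ (by positivity) hD.le t
      _ = q ^ (D * t) := (pow_mul _ _ _).symm
      _ ≤ q ^ (D * m) := pow_le_pow_right₀ hq.le (Nat.mul_le_mul_left _ ht.2)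
      _ = Y := hY.symm
  -- upper bound for smaller sets
  have hGs : ∀ t ∈ Finset.Icc 1 m, ∀ r ∈ Finset.Ico 1 k,
      ((Gs (A (l + t)) (k - r) L).card : ℝ) * (q ^ l) ^ (2 * r) ≤ C3 * (q ^ l) ^ (2 * k) := by
    intro t ht r hr
    rw [Finset.mem_Icc] at ht
    rw [Finset.mem_Ico] at hr
    obtain ⟨A1, hA1, hA1c⟩ := Finset.exists_subset_card_eq
      (show (A l).card / 2 ≤ (A l).card from Nat.div_le_self _ _)
    have hA2c : (A l \ A1).card = (A l).card - (A l).card / 2 := by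
      rw [Finset.card_sdiff_of_subset hA1, hA1c]
    have key := Gs_bound hα0 hα1 (h := 2 * k) (k := k) (by omega) hS (A (l + t)) (A l) A1
      (A l \ A1) (fun x hx => (hAmem _ x hx).2) (fun x hx => (hAmem _ x hx).2) (by
        intro x hx y hy
        have h1 := (hAmem _ x hx).1.1
        have h2 := (hAmem _ y hy).1.2
        have h3 : B ^ (l + 1) ≤ B ^ (l + t) := Nat.pow_le_pow_right (by omega) (by omega)
        omega) hA1 Finset.sdiff_subset Finset.disjoint_sdiff (B ^ l) L (Nat.one_le_pow _ _ (by omega))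
      (by rw [hL]; exact Nat.pow_le_pow_right (by omega) (by omega))
      (fun x hx => (hAmem _ x hx).1.1.le) (by
        intro x hx
        have h1 := (hAmem _ x hx).1.1
        have h3 : B ^ l ≤ B ^ (l + t) := Nat.pow_le_pow_right (by omega) (by omega)
        omega) (by
        intro x hx
        rw [hL]
        exact (hAmem _ x hx).1.2) (k - r) r (by omega)
    rw [hBα] at key
    have hr0 : (r : ℝ) ≤ k := by exact_mod_cast hr.2.le
    have hcl := hAlow l hlj0
    have hquart : 0 ≤ q ^ l / 4 := by positivity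
    have hn1 : ((A l).card : ℝ) ≤ 2 * A1.card + 1 := by
      rw [hA1c]
      exact_mod_cast (by omega : (A l).card ≤ 2 * ((A l).card / 2) + 1)
    have hn2 : ((A l).card : ℝ) ≤ 2 * (A l \ A1).card + 1 := by
      rw [hA2c]
      exact_mod_cast (by omega : (A l).card ≤ 2 * ((A l).card - (A l).card / 2) + 1)
    have g1 := choose_ge A1.card r (q ^ l / 4) hquart (by linarith)
    have g2 := choose_ge (A l \ A1).card r (q ^ l / 4) hquart (by linarith)
    have hrfac : (0 : ℝ) < r.factorial := by exact_mod_cast Nat.factorial_pos r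
    have g3 : c3 * (q ^ l) ^ (2 * r) ≤ (A1.card.choose r : ℝ) * ((A l \ A1).card.choose r) := by
      have g4 : (q ^ l / 4) ^ r / r.factorial * ((q ^ l / 4) ^ r / r.factorial) ≤
          (A1.card.choose r : ℝ) * ((A l \ A1).card.choose r) :=
        mul_le_mul g1 g2 (by positivity) (by positivity)
      refine le_trans ?_ g4
      have e : (q ^ l / 4) ^ r / r.factorial * ((q ^ l / 4) ^ r / r.factorial) =
          1 / (16 ^ r * (r.factorial : ℝ) ^ 2) * (q ^ l) ^ (2 * r) := by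
        rw [div_pow, show (16 : ℝ) = 4 * 4 by norm_num, mul_pow]
        field_simp
        ring
      rw [e, hc3]
      apply mul_le_mul_of_nonneg_right _ (by positivity)
      apply one_div_le_one_div_of_le (by positivity)
      have f1 : (16 : ℝ) ^ r ≤ 16 ^ k := pow_le_pow_right₀ (by norm_num) hr.2.le
      have f2 : (r.factorial : ℝ) ≤ k.factorial := by
        exact_mod_cast Nat.factorial_le hr.2.le
      have f3 : (r.factorial : ℝ) ^ 2 ≤ (k.factorial : ℝ) ^ 2 := by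
        apply pow_le_pow_left₀ (by positivity) f2
      exact mul_le_mul f1 f3 (by positivity) (by positivity)
    have hG0 : (0 : ℝ) ≤ ((Gs (A (l + t)) (k - r) L).card : ℝ) := Nat.cast_nonneg _
    have hal : 0 < a ^ l := by positivity
    have g5 : ((Gs (A (l + t)) (k - r) L).card : ℝ) * (c3 * (q ^ l) ^ (2 * r)) * a ^ l ≤
        (2 * k + 2) * L := by
      refine le_trans ?_ key
      apply mul_le_mul_of_nonneg_right _ hal.le
      exact mul_le_mul_of_nonneg_left g3 hG0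
    rw [hLreal, hBj] at g5
    have g6 : (((Gs (A (l + t)) (k - r) L).card : ℝ) * (q ^ l) ^ (2 * r)) * (c3 * a ^ l) ≤
        (C3 * (q ^ l) ^ (2 * k)) * (c3 * a ^ l) := by
      calc _ = ((Gs (A (l + t)) (k - r) L).card : ℝ) * (c3 * (q ^ l) ^ (2 * r)) * a ^ l := by ring
        _ ≤ _ := g5
        _ = _ := by
          rw [hC3]
          field_simp
    exact le_of_mul_le_mul_right g6 (by positivity)
  -- the lower bound on each scale
  have hscale : ∀ t ∈ Finset.Icc 1 m,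
      c5 / 2 * (B : ℝ) ^ l ≤ ((Gs (A (l + t)) k L).card : ℝ) * a ^ (l + t) := by
    intro t ht
    have hst := hsmall t ht
    have hGst := hGs t ht
    rw [Finset.mem_Icc] at ht
    obtain ⟨j, hj⟩ : ∃ j, j = l + t := ⟨_, rfl⟩
    rw [← hj] at hGst ⊢
    have hjj0 : j0 ≤ j := by omega
    have hAj := hAlow j hjj0
    have hAj' := hAup j hjj0
    have hqj : q ^ j = q ^ l * q ^ t := by rw [hj, pow_add]
    have haj : a ^ j = a ^ l * a ^ t := by rw [hj, pow_add]
    have hat1 : 1 ≤ a ^ t := one_le_pow₀ ha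
    have hqt1 : 1 ≤ q ^ t := one_le_pow₀ hq.le
    have hqj4 : 4 * (k : ℝ) ≤ q ^ j := by
      rw [hqj]
      nlinarith
    obtain ⟨M, hM⟩ : ∃ M : ℕ, M = (A j).card.choose k := ⟨_, rfl⟩
    have hMlow : c4 * (q ^ j) ^ k ≤ M := by
      have g1 := choose_ge (A j).card k (q ^ j / 2) (by positivity) (by linarith)
      rw [hM]
      refine le_trans (le_of_eq ?_) g1
      rw [hc4, div_pow]
      field_simp
    -- off-diagonal pairs
    have hoff := offdiag hα0 (h := 2 * k) (k := k) (by omega) hS (A j)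
      (fun x hx => (hAmem _ x hx).2) (by
        intro x hx
        have := (hAmem _ x hx).1.1
        omega) L (2 * k * B ^ t) hLpos (by
        intro T hT
        rw [Finset.mem_powersetCard] at hT
        apply Nat.div_lt_of_lt_mul
        have h1 : ∑ x ∈ T, x ≤ k * B ^ (j + 1) := by
          have := Finset.sum_le_card_nsmul T (fun x => x) (B ^ (j + 1))
            (fun x hx => (hAmem _ x (hT.1 hx)).1.2)
          rwa [hT.2, smul_eq_mul] at this
        have h2 : k * B ^ (j + 1) < L * (2 * k * B ^ t) := by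
          have e : L * (2 * k * B ^ t) = 2 * (k * B ^ (j + 1)) := by
            rw [hL, hj]
            ring
          rw [e]
          have : 0 < k * B ^ (j + 1) := by positivity
          omega
        omega)
    rw [← hM] at hoff
    have hoffR : (M : ℝ) ^ 2 ≤ (2 * k * (B : ℝ) ^ t) * (M + 2 * (Gall (A j) k L).card) := by
      exact_mod_cast hoff
    have h2W : 2 * (2 * k * (B : ℝ) ^ t) ≤ M := by
      refine le_trans ?_ hMlow
      rw [hBj]
      have e1 : a ^ t * (q ^ t) ^ (2 * k) ≤ (q ^ t) ^ k * (Y ^ k) := by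
        have f1 : a ^ t ≤ (a ^ t) ^ k := le_self_pow₀ hat1 (by omega)
        calc a ^ t * (q ^ t) ^ (2 * k) ≤ (a ^ t) ^ k * (q ^ t) ^ (2 * k) :=
              mul_le_mul_of_nonneg_right f1 (by positivity)
          _ = (q ^ t) ^ k * (a ^ t * q ^ t) ^ k := by ring
          _ ≤ (q ^ t) ^ k * Y ^ k := by
              apply mul_le_mul_of_nonneg_left _ (by positivity)
              exact pow_le_pow_left₀ (by positivity) hst k
      have e2 : (q ^ j) ^ k = (q ^ t) ^ k * (Y ^ k * Y ^ k) := by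
        rw [hqj, hql]
        ring
      have e3 : Y ≤ Y ^ k := le_self_pow₀ hY1 (by omega)
      calc 2 * (2 * k * (a ^ t * (q ^ t) ^ (2 * k))) = 4 * k * (a ^ t * (q ^ t) ^ (2 * k)) := by ring
        _ ≤ 4 * k * ((q ^ t) ^ k * (Y ^ k)) := mul_le_mul_of_nonneg_left e1 (by positivity)
        _ ≤ (c4 * Y) * ((q ^ t) ^ k * (Y ^ k)) := mul_le_mul_of_nonneg_right hYb (by positivity)
        _ ≤ (c4 * Y ^ k) * ((q ^ t) ^ k * (Y ^ k)) := by
            apply mul_le_mul_of_nonneg_right _ (by positivity)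
            exact mul_le_mul_of_nonneg_left e3 hc4pos.le
        _ = c4 * (q ^ j) ^ k := by rw [e2]; ring
    have hM0 : (0 : ℝ) ≤ M := Nat.cast_nonneg _
    have hBt : (0 : ℝ) < (B : ℝ) ^ t := by positivity
    have hGall1 : (M : ℝ) ^ 2 ≤ 4 * (2 * k * (B : ℝ) ^ t) * (Gall (A j) k L).card := by
      nlinarith
    have hGall2 : c5 * (B : ℝ) ^ l ≤ (Gall (A j) k L).card * a ^ j := by
      have f1 : (c4 * (q ^ j) ^ k) ^ 2 ≤ (M : ℝ) ^ 2 :=
        pow_le_pow_left₀ (by positivity) hMlow 2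
      have f2 : c4 ^ 2 * (B : ℝ) ^ j ≤ 8 * k * (B : ℝ) ^ t * ((Gall (A j) k L).card * a ^ j) := by
        calc c4 ^ 2 * (B : ℝ) ^ j = (c4 * (q ^ j) ^ k) ^ 2 * a ^ j := by
              rw [hBj]; ring
          _ ≤ (4 * (2 * k * (B : ℝ) ^ t) * (Gall (A j) k L).card) * a ^ j :=
              mul_le_mul_of_nonneg_right (f1.trans hGall1) (by positivity)
          _ = _ := by ring
      have f3 : (B : ℝ) ^ j = (B : ℝ) ^ l * (B : ℝ) ^ t := by rw [hj, pow_add]
      rw [f3] at f2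
      have f4 : (c5 * (B : ℝ) ^ l) * (8 * k * (B : ℝ) ^ t) ≤
          ((Gall (A j) k L).card * a ^ j) * (8 * k * (B : ℝ) ^ t) := by
        calc (c5 * (B : ℝ) ^ l) * (8 * k * (B : ℝ) ^ t)
            = c4 ^ 2 * ((B : ℝ) ^ l * (B : ℝ) ^ t) := by
              rw [hc5]; field_simp
          _ ≤ _ := f2
          _ = _ := by ring
      exact le_of_mul_le_mul_right f4 (by positivity)
    -- intersecting pairs
    have hterm : ∀ r ∈ Finset.Ico 1 k,
        (((A j).card.choose r : ℝ) * (Gs (A j) (k - r) L).card) * a ^ j * Y ≤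
          C2 ^ k * C3 * (B : ℝ) ^ l := by
      intro r hr
      have hG := hGst r hr
      rw [Finset.mem_Ico] at hr
      have f1 : ((A j).card.choose r : ℝ) ≤ C2 ^ k * (q ^ j) ^ r := by
        have g1 : (((A j).card.choose r : ℕ) : ℝ) ≤ ((A j).card : ℝ) ^ r := by
          exact_mod_cast Nat.choose_le_pow _ _
        calc _ ≤ ((A j).card : ℝ) ^ r := g1
          _ ≤ (C2 * q ^ j) ^ r := pow_le_pow_left₀ (by positivity) hAj' r
          _ = C2 ^ r * (q ^ j) ^ r := mul_pow _ _ _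
          _ ≤ C2 ^ k * (q ^ j) ^ r := by
              apply mul_le_mul_of_nonneg_right _ (by positivity)
              exact pow_le_pow_right₀ hC2 hr.2.le
      have hpos2 : 0 < (q ^ l) ^ (2 * r) := by positivity
      have f2 : a ^ t * (q ^ j) ^ r * Y ≤ (q ^ l) ^ (2 * r) := by
        have g1 : a ^ t ≤ (a ^ t) ^ r := le_self_pow₀ hat1 (by omega)
        have g2 : Y ≤ Y ^ r := le_self_pow₀ hY1 (by omega)
        calc a ^ t * (q ^ j) ^ r * Y ≤ (a ^ t) ^ r * (q ^ j) ^ r * Y ^ r := by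
              apply mul_le_mul _ g2 hY0.le (by positivity)
              exact mul_le_mul_of_nonneg_right g1 (by positivity)
          _ = (q ^ l) ^ r * (a ^ t * q ^ t) ^ r * Y ^ r := by rw [hqj]; ring
          _ ≤ (q ^ l) ^ r * Y ^ r * Y ^ r := by
              apply mul_le_mul_of_nonneg_right _ (by positivity)
              apply mul_le_mul_of_nonneg_left _ (by positivity)
              exact pow_le_pow_left₀ (by positivity) hst r
          _ = (q ^ l) ^ (2 * r) := by rw [hql]; ring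
      have hG0 : (0 : ℝ) ≤ ((Gs (A j) (k - r) L).card : ℝ) := Nat.cast_nonneg _
      have f3 : ((((A j).card.choose r : ℝ) * (Gs (A j) (k - r) L).card) * a ^ j * Y) *
          (q ^ l) ^ (2 * r) ≤ (C2 ^ k * C3 * (B : ℝ) ^ l) * (q ^ l) ^ (2 * r) := by
        calc _ = ((A j).card.choose r : ℝ) * (((Gs (A j) (k - r) L).card : ℝ) *
                (q ^ l) ^ (2 * r)) * (a ^ l * a ^ t * Y) := by rw [haj]; ring
          _ ≤ (C2 ^ k * (q ^ j) ^ r) * (C3 * (q ^ l) ^ (2 * k)) * (a ^ l * a ^ t * Y) := by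
              apply mul_le_mul_of_nonneg_right _ (by positivity)
              exact mul_le_mul f1 hG (by positivity) (by positivity)
          _ = C2 ^ k * C3 * (a ^ l * (q ^ l) ^ (2 * k)) * (a ^ t * (q ^ j) ^ r * Y) := by ring
          _ ≤ C2 ^ k * C3 * (a ^ l * (q ^ l) ^ (2 * k)) * (q ^ l) ^ (2 * r) :=
              mul_le_mul_of_nonneg_left f2 (by positivity)
          _ = _ := by rw [hBj]
      exact le_of_mul_le_mul_right f3 hpos2
    have hsplit := Gall_le (A j) k L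
    have hsplitR : ((Gall (A j) k L).card : ℝ) ≤ (Gs (A j) k L).card +
        ∑ r ∈ Finset.Ico 1 k, ((A j).card.choose r : ℝ) * (Gs (A j) (k - r) L).card := by
      exact_mod_cast hsplit
    have hsumterm : (∑ r ∈ Finset.Ico 1 k,
        ((A j).card.choose r : ℝ) * (Gs (A j) (k - r) L).card) * a ^ j * Y ≤
          k * (C2 ^ k * C3 * (B : ℝ) ^ l) := by
      rw [Finset.sum_mul, Finset.sum_mul]
      calc _ ≤ ∑ r ∈ Finset.Ico 1 k, (C2 ^ k * C3 * (B : ℝ) ^ l) := Finset.sum_le_sum hterm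
        _ = ((k - 1 : ℕ) : ℝ) * (C2 ^ k * C3 * (B : ℝ) ^ l) := by
            rw [Finset.sum_const, Nat.card_Ico, nsmul_eq_mul]
        _ ≤ _ := by
            apply mul_le_mul_of_nonneg_right _ (by positivity)
            exact_mod_cast Nat.sub_le k 1
    have hsum2 : (∑ r ∈ Finset.Ico 1 k,
        ((A j).card.choose r : ℝ) * (Gs (A j) (k - r) L).card) * a ^ j ≤
          c5 / 2 * (B : ℝ) ^ l := by
      have hBl : (0 : ℝ) < (B : ℝ) ^ l := by positivity
      have f1 : k * (C2 ^ k * C3 * (B : ℝ) ^ l) ≤ (c5 / 2 * (B : ℝ) ^ l) * Y := by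
        calc _ = (k * C2 ^ k * C3) * (B : ℝ) ^ l := by ring
          _ ≤ (c5 / 2 * Y) * (B : ℝ) ^ l := mul_le_mul_of_nonneg_right hYc hBl.le
          _ = _ := by ring
      exact le_of_mul_le_mul_right (hsumterm.trans f1) hY0
    have hajpos : 0 < a ^ j := by positivity
    have := mul_le_mul_of_nonneg_right hsplitR hajpos.le
    rw [add_mul] at this
    linarith
  -- final packing
  have hfinal := pack ((Finset.Icc 1 m).sigma (fun t => Gs (A (l + t)) k L))
    (fun i => sg i.2.1 - sg i.2.2) (fun i => a ^ (l + i.1)) 0 L L ?_ ?_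
    (fun _ _ => by positivity) ?_ (by positivity) ?_
  · rw [Finset.sum_sigma] at hfinal
    have h1 : ∑ t ∈ Finset.Icc 1 m, (c5 / 2 * (B : ℝ) ^ l) ≤
        ∑ t ∈ Finset.Icc 1 m, ∑ _p ∈ Gs (A (l + t)) k L, a ^ (l + t) := by
      apply Finset.sum_le_sum
      intro t ht
      rw [Finset.sum_const, nsmul_eq_mul]
      exact hscale t ht
    rw [Finset.sum_const, Nat.card_Icc, nsmul_eq_mul, Nat.add_sub_cancel] at h1
    have h2 := h1.trans hfinal
    rw [hLreal] at h2
    have hBl : (0 : ℝ) < (B : ℝ) ^ l := by positivity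
    have h3 : ((m : ℝ) * (c5 / 2)) * (B : ℝ) ^ l ≤ (2 * B) * (B : ℝ) ^ l := by
      calc _ = (m : ℝ) * (c5 / 2 * (B : ℝ) ^ l) := by ring
        _ ≤ _ := h2
        _ = _ := by ring
    have h4 := le_of_mul_le_mul_right h3 hBl
    rw [div_lt_iff₀ hc5pos] at hmbig
    linarith
  · rintro ⟨t, T, T'⟩ hp
    rw [Finset.mem_sigma, mem_Gs] at hp
    obtain ⟨-, -, -, h1, -⟩ := hp
    simp only at h1 ⊢
    have : sg T' ≤ sg T := by unfold sg; exact_mod_cast h1.le
    linarith
  · rintro ⟨t, T, T'⟩ hp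
    rw [Finset.mem_sigma, mem_Gs] at hp
    obtain ⟨-, -, -, -, h1⟩ := hp
    simp only at h1 ⊢
    have : sg T ≤ sg T' + L := by unfold sg; exact_mod_cast h1.le
    linarith
  · rintro ⟨t, T, T'⟩ hp
    rw [Finset.mem_sigma] at hp
    have ht := hp.1
    simp only at ht ⊢
    have hst := hsmall t ht
    have hqt1 : 1 ≤ q ^ t := one_le_pow₀ hq.le
    have hat0 : 0 < a ^ t := by positivity
    have h1 : a ^ t ≤ Y := by nlinarith
    have h2 : Y ≤ (q ^ l) ^ (2 * k) := by
      refine hYql.trans ?_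
      exact le_self_pow₀ (one_le_pow₀ hq.le) (by omega)
    calc a ^ (l + t) = a ^ l * a ^ t := pow_add _ _ _
      _ ≤ a ^ l * (q ^ l) ^ (2 * k) := mul_le_mul_of_nonneg_left (h1.trans h2) (by positivity)
      _ = (B : ℝ) ^ l := (hBj l).symm
      _ ≤ B * (B : ℝ) ^ l := by
          have : (1 : ℝ) ≤ B := by exact_mod_cast (by omega : 1 ≤ B)
          have hBl : (0 : ℝ) < (B : ℝ) ^ l := by positivity
          nlinarith
      _ = L := hLreal.symm
  · -- separation
    have hdisjA : ∀ i j : ℕ, i < j → ∀ x ∈ A j, x ∉ A i := by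
      intro i j hij x hx hx'
      have h1 := (hAmem _ x hx).1.1
      have h2 := (hAmem _ x hx').1.2
      have h3 : B ^ (i + 1) ≤ B ^ j := Nat.pow_le_pow_right (by omega) (by omega)
      omega
    have hcross : ∀ t t' : ℕ, t' < t → ∀ T T' V V' : Finset ℕ,
        (T, T') ∈ Gs (A (l + t)) k L → (V, V') ∈ Gs (A (l + t')) k L →
        a ^ (l + t) ≤ |(sg T - sg T') - (sg V - sg V')| := by
      intro t t' htt' T T' V V' hp hq'
      rw [mem_Gs] at hp hq'
      obtain ⟨⟨hT, hT'⟩, hd, -, -⟩ := hp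
      obtain ⟨⟨hV, hV'⟩, hd', -, -⟩ := hq'
      simp only at hT hT' hd hV hV' hd'
      have hne : T.Nonempty := by
        rw [← Finset.card_pos]
        omega
      obtain ⟨z, hz⟩ := hne
      have h4 := sep_pair hS T T' V V' (fun x hx => (hAmem _ x (hT.1 hx)).2)
        (fun x hx => (hAmem _ x (hT'.1 hx)).2) (fun x hx => (hAmem _ x (hV.1 hx)).2)
        (fun x hx => (hAmem _ x (hV'.1 hx)).2) (by omega) (by omega) z hz
        (fun hzT => Finset.disjoint_left.1 hd hz hzT)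
        (fun hzV => hdisjA (l + t') (l + t) (by omega) z (hT.1 hz) (hV.1 hzV))
      refine le_trans ?_ h4
      rw [← hBα]
      apply Real.rpow_le_rpow (Nat.cast_nonneg _) _ hα0
      exact_mod_cast (hAmem _ z (hT.1 hz)).1.1.le
    rintro ⟨t, T, T'⟩ hp ⟨t', V, V'⟩ hq' hne
    rw [Finset.mem_sigma] at hp hq'
    simp only at hp hq' ⊢
    rcases lt_trichotomy t t' with h1 | h1 | h1
    · have h2 := hcross t' t h1 V V' T T' hq'.2 hp.2
      rw [abs_sub_comm]
      refine le_trans ?_ h2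
      exact pow_le_pow_right₀ ha (by omega)
    · subst h1
      have hp2 := mem_Gs.1 hp.2
      have hq2 := mem_Gs.1 hq'.2
      obtain ⟨⟨hT, hT'⟩, hd, -, -⟩ := hp2
      obtain ⟨⟨hV, hV'⟩, hd', -, -⟩ := hq2
      simp only at hT hT' hd hV hV' hd'
      have h2 := sep_ne hα0 hS T T' V V' (fun x hx => (hAmem _ x (hT.1 hx)).2)
        (fun x hx => (hAmem _ x (hT'.1 hx)).2) (fun x hx => (hAmem _ x (hV.1 hx)).2)
        (fun x hx => (hAmem _ x (hV'.1 hx)).2) hT.2 hT'.2 hV.2 hV'.2 (by omega) hd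
        (by rintro ⟨rfl, rfl⟩; exact hne rfl) (B ^ (l + t))
        (fun x hx => (hAmem _ x (hT.1 hx)).1.1.le) (fun x hx => (hAmem _ x (hT'.1 hx)).1.1.le)
      rwa [hBα] at h2
    · exact hcross t t' h1 T T' V V' hp.2 hq'.2

/-- **Even order.** For every even `h ≥ 2` and every `0 ≤ α < 1`, every infinite `α`-strong `B_h`
set `S` of positive integers satisfies `liminf S(n) / n^((1-α)/h) = 0`. -/
theorem result (α : ℝ) (hα0 : 0 ≤ α) (hα1 : α < 1) (h : ℕ) (h2 : 2 ≤ h) (heven : Even h)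
    (S : Set ℕ) (hpos : ∀ x ∈ S, 1 ≤ x) (hinf : S.Infinite) (hS : IsStrongB α h S) :
    Filter.liminf (fun n : ℕ => (((count S n : ℝ) / (n : ℝ) ^ ((1 - α) / h) : ℝ) : EReal))
      Filter.atTop = 0 := by
  obtain ⟨k, hk⟩ := heven
  have hk' : h = 2 * k := by omega
  subst hk'
  have hfreq : ∀ c : ℝ, 0 < c → ∃ᶠ n : ℕ in Filter.atTop,
      (count S n : ℝ) / (n : ℝ) ^ ((1 - α) / (2 * k : ℕ)) ≤ c := by
    intro c hc
    by_contra hcon
    rw [Filter.not_frequently, Filter.eventually_atTop] at hcon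
    obtain ⟨n0, hn0⟩ := hcon
    apply core hα0 hα1 (k := k) (by omega) hS c hc (n0 + 1)
    intro n hn
    have h1 := hn0 n (by omega)
    push Not at h1
    have hn1 : (0 : ℝ) < n := by exact_mod_cast (by omega : 0 < n)
    have h3 : 0 < (n : ℝ) ^ ((1 - α) / (2 * k : ℕ)) := Real.rpow_pos_of_pos hn1 _
    rw [lt_div_iff₀ h3] at h1
    exact h1.le
  apply le_antisymm
  · have : ∀ c : ℝ, 0 < c → Filter.liminf
        (fun n : ℕ => (((count S n : ℝ) / (n : ℝ) ^ ((1 - α) / (2 * k : ℕ)) : ℝ) : EReal))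
        Filter.atTop ≤ (c : EReal) := by
      intro c hc
      apply Filter.liminf_le_of_frequently_le'
      refine (hfreq c hc).mono fun n hn => ?_
      exact_mod_cast hn
    apply EReal.le_of_forall_lt_iff_le.1
    intro z hz
    exact this z (by exact_mod_cast hz)
  · apply Filter.le_liminf_of_le
    · isBoundedDefault
    · refine Filter.Eventually.of_forall fun n => ?_
      have : (0 : ℝ) ≤ (count S n : ℝ) / (n : ℝ) ^ ((1 - α) / (2 * k : ℕ)) := by positivity
      exact_mod_cast this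

end Pool.Agent.Results.MP_1d2509_nt.EvenOrder
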