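import Mathlib
import Pool.Agent.StrongBh.Defs
import Pool.Agent.StrongBh.NearOpt

/-! Dense infinite `α`-strong `B_h` sets. The proof is in `Pool/Agent/StrongBh/NearOpt.lean`. -/

set_option autoImplicit false

namespace Pool.Agent.Results.MP_1d2509_nt.NearOptimalExponent

open Pool.Agent.StrongBh

/-- **Dense `α`-strong `B_h` sets.** For `0 ≤ α < 1` and `h ≥ 2` there is an infinite `α`-strong
`B_h` set `S` of positive integers with `S(n) ≥ c n^E` for all large `n` and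
`S(n) ≥ c n^((1-α)/h)` for infinitely many `n`, where
`E = (1-α)(1+(h-1)α)/(h²-(h-1)(1-α)²)`; moreover `E ≥ α(1-α)/h`, and for `α ≥ 1/2` the exponent
`E` is larger than `√((h-1+α/2)²+1-α)-(h-1+α/2)`. -/
theorem result (α : ℝ) (h : ℕ) (hα0 : 0 ≤ α) (hα1 : α < 1) (hh : 2 ≤ h) :
    (∃ S : Set ℕ, S.Infinite ∧ (∀ s ∈ S, 1 ≤ s) ∧ IsStrongB α h S ∧ ∃ c : ℝ, 0 < c ∧
      (∀ᶠ n : ℕ in Filter.atTop, c * (n : ℝ) ^ ((1 - α) * (1 + (h - 1) * α) /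
        (h ^ 2 - (h - 1) * (1 - α) ^ 2)) ≤ count S n) ∧
      ∃ᶠ n : ℕ in Filter.atTop, c * (n : ℝ) ^ ((1 - α) / h) ≤ count S n) ∧
    α * ((1 - α) / h) ≤ (1 - α) * (1 + (h - 1) * α) / (h ^ 2 - (h - 1) * (1 - α) ^ 2) ∧
    (1 / 2 ≤ α → √((h - 1 + α / 2) ^ 2 + 1 - α) - (h - 1 + α / 2) <
      (1 - α) * (1 + (h - 1) * α) / (h ^ 2 - (h - 1) * (1 - α) ^ 2)) :=
  ⟨NearOpt.main hh hα0 hα1, NearOpt.EE_lower hh hα0 hα1, fun h1 => NearOpt.EE_known hh h1 hα1⟩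

end Pool.Agent.Results.MP_1d2509_nt.NearOptimalExponent
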