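import Mathlib
import Pool.Agent.Results.MP_1d2509_nt.EvenOrder

set_option autoImplicit false

namespace Pool.Agent.Results.MP_1d2509_nt.ShortIntervals

open Pool.Agent.Results.MP_1d2509_nt.EvenOrder
open Filter Finset

/-- the number of elements of `S` in the real interval `((1 - ε) x, x]` -/
noncomputable def loc (S : Set ℕ) (ε : ℝ) (x : ℕ) : ℕ :=
  (S ∩ {s : ℕ | (1 - ε) * (x : ℝ) < s ∧ s ≤ x}).ncard

lemma loc_le (S : Set ℕ) (ε : ℝ) (x w : ℕ) (hw : ε * x ≤ w) (hwx : w ≤ x) :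
    loc S ε x ≤ (blk S (x - w) x).card := by
  unfold loc
  rw [← Set.ncard_coe_finset]
  apply Set.ncard_le_ncard _ (Finset.finite_toSet _)
  rintro s ⟨hs, h1, h2⟩
  rw [Finset.mem_coe, mem_blk]
  refine ⟨⟨?_, h2⟩, hs⟩
  have h3 : (x : ℝ) < s + w := by linarith
  have h4 : x < s + w := by exact_mod_cast h3
  omega

/-- data at scale `n`: `k + 1` elements of a first block, `k - 1` elements of a second block and one
larger element -/
def Dat (S : Set ℕ) (k n v : ℕ) (A C : Finset ℕ) (c : ℕ) : Prop :=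
  A ⊆ blk S n (n + v) ∧ A.card = k + 1 ∧ C ⊆ blk S (n + v) (n + 2 * v) ∧ C.card + 1 = k ∧
    n + 2 * v < c ∧ c ≤ 3 * n ∧ c ∈ S ∧ 2 * v ≤ n

/-- the value of the data -/
noncomputable def val (A C : Finset ℕ) (c : ℕ) : ℝ := (∑ x ∈ A, (x : ℝ)) - (∑ x ∈ C, (x : ℝ)) - c

lemma val_sub (A C A' C' : Finset ℕ) (c c' : ℕ) :
    val A C c - val A' C' c' =
      (((A.val + C'.val + {c'} : Multiset ℕ).sum : ℕ) : ℝ) -
        (((A'.val + C.val + {c} : Multiset ℕ).sum : ℕ) : ℝ) := by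
  have h1 : ∀ B : Finset ℕ, ((B.val.sum : ℕ) : ℝ) = ∑ x ∈ B, (x : ℝ) := by
    intro B
    have : B.val.sum = ∑ x ∈ B, x := by
      rw [Finset.sum, Multiset.map_id']
    rw [this]
    push_cast
    rfl
  simp only [Multiset.sum_add, Multiset.sum_singleton, Nat.cast_add, h1]
  unfold val
  ring

lemma sep_of {α : ℝ} (hα0 : 0 ≤ α) {k : ℕ} {S : Set ℕ} (hS : IsStrongB α (2 * k + 1) S)
    {n v n' v' : ℕ} {A A' C C' : Finset ℕ} {c c' : ℕ} (h1 : Dat S k n v A C c)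
    (h2 : Dat S k n' v' A' C' c') (m z : ℕ) (hz : m ≤ z)
    (hz2 : z ∈ (A.val + C'.val + {c'} : Multiset ℕ) - (A'.val + C.val + {c} : Multiset ℕ)) :
    (m : ℝ) ^ α ≤ |val A C c - val A' C' c'| := by
  obtain ⟨hA, hAc, hC, hCc, hc1, hc2, hcS, hv⟩ := h1
  obtain ⟨hA', hAc', hC', hCc', hc1', hc2', hcS', hv'⟩ := h2
  rw [val_sub]
  have h3 := sep_multiset hS (A.val + C'.val + {c'}) (A'.val + C.val + {c}) (by
      intro x hx
      simp only [Multiset.mem_add, Multiset.mem_singleton, Finset.mem_val] at hx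
      rcases hx with (hx | hx) | hx
      · exact (mem_blk.1 (hA hx)).2
      · exact (mem_blk.1 (hC' hx)).2
      · rw [hx]; exact hcS') (by
      intro x hx
      simp only [Multiset.mem_add, Multiset.mem_singleton, Finset.mem_val] at hx
      rcases hx with (hx | hx) | hx
      · exact (mem_blk.1 (hA' hx)).2
      · exact (mem_blk.1 (hC hx)).2
      · rw [hx]; exact hcS) (by
      simp only [Multiset.card_add, Multiset.card_singleton, Finset.card_val]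
      omega) (by
      simp only [Multiset.card_add, Multiset.card_singleton, Finset.card_val]
      omega) z hz2
  refine le_trans ?_ h3
  exact Real.rpow_le_rpow (Nat.cast_nonneg _) (by exact_mod_cast hz) hα0

lemma sep_same {α : ℝ} (hα0 : 0 ≤ α) {k : ℕ} {S : Set ℕ} (hS : IsStrongB α (2 * k + 1) S)
    {n v : ℕ} {A A' C C' : Finset ℕ} {c c' : ℕ} (h1 : Dat S k n v A C c)
    (h2 : Dat S k n v A' C' c') (hne : ¬ (A = A' ∧ C = C' ∧ c = c')) :
    (n : ℝ) ^ α ≤ |val A C c - val A' C' c'| := by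
  set P : Multiset ℕ := A.val + C'.val + {c'} with hP
  set Q : Multiset ℕ := A'.val + C.val + {c} with hQ
  obtain ⟨hA, hAc, hC, hCc, hc1, hc2, hcS, hv⟩ := id h1
  obtain ⟨hA', hAc', hC', hCc', hc1', hc2', hcS', hv'⟩ := id h2
  have hmemP : ∀ x, x ∈ P ↔ x ∈ A ∨ x ∈ C' ∨ x = c' := by
    intro x
    simp only [hP, Multiset.mem_add, Multiset.mem_singleton, Finset.mem_val, or_assoc]
  have hmemQ : ∀ x, x ∈ Q ↔ x ∈ A' ∨ x ∈ C ∨ x = c := by
    intro x
    simp only [hQ, Multiset.mem_add, Multiset.mem_singleton, Finset.mem_val, or_assoc]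
  have bA : ∀ x ∈ A, n < x ∧ x ≤ n + v := fun x hx => (mem_blk.1 (hA hx)).1
  have bA' : ∀ x ∈ A', n < x ∧ x ≤ n + v := fun x hx => (mem_blk.1 (hA' hx)).1
  have bC : ∀ x ∈ C, n + v < x ∧ x ≤ n + 2 * v := fun x hx => (mem_blk.1 (hC hx)).1
  have bC' : ∀ x ∈ C', n + v < x ∧ x ≤ n + 2 * v := fun x hx => (mem_blk.1 (hC' hx)).1
  have hPQ : P ≠ Q := by
    intro heq
    apply hne
    have hiff : ∀ x, (x ∈ A ∨ x ∈ C' ∨ x = c') ↔ (x ∈ A' ∨ x ∈ C ∨ x = c) := by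
      intro x
      rw [← hmemP, ← hmemQ, heq]
    refine ⟨?_, ?_, ?_⟩
    · ext x
      constructor
      · intro hx
        have b := bA x hx
        rcases (hiff x).1 (Or.inl hx) with h | h | h
        · exact h
        · have := bC x h; omega
        · omega
      · intro hx
        have b := bA' x hx
        rcases (hiff x).2 (Or.inl hx) with h | h | h
        · exact h
        · have := bC' x h; omega
        · omega
    · ext x
      constructor
      · intro hx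
        have b := bC x hx
        rcases (hiff x).2 (Or.inr (Or.inl hx)) with h | h | h
        · have := bA x h; omega
        · exact h
        · omega
      · intro hx
        have b := bC' x hx
        rcases (hiff x).1 (Or.inr (Or.inl hx)) with h | h | h
        · have := bA' x h; omega
        · exact h
        · omega
    · rcases (hiff c).2 (Or.inr (Or.inr rfl)) with h | h | h
      · have := bA c h; omega
      · have := bC' c h; omega
      · exact h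
  have hcard : Multiset.card P = Multiset.card Q := by
    simp only [hP, hQ, Multiset.card_add, Multiset.card_singleton, Finset.card_val]
    omega
  have hne0 : P - Q ≠ 0 := by
    intro h0
    have hle : P ≤ Q := tsub_eq_zero_iff_le.1 h0
    exact hPQ (Multiset.eq_of_le_of_card_le hle hcard.ge)
  obtain ⟨z, hz⟩ := Multiset.exists_mem_of_ne_zero hne0
  refine sep_of hα0 hS h1 h2 n z ?_ hz
  have hzP : z ∈ P := Multiset.mem_of_le (Multiset.sub_le_self _ _) hz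
  rcases (hmemP z).1 hzP with h | h | h
  · exact (bA z h).1.le
  · have := bC' z h; omega
  · omega

lemma sep_lt {α : ℝ} (hα0 : 0 ≤ α) {k : ℕ} {S : Set ℕ} (hS : IsStrongB α (2 * k + 1) S)
    {n v n' v' : ℕ} {A A' C C' : Finset ℕ} {c c' : ℕ} (h1 : Dat S k n v A C c)
    (h2 : Dat S k n' v' A' C' c') (hnn : 3 * n' ≤ n) :
    (n : ℝ) ^ α ≤ |val A C c - val A' C' c'| := by
  obtain ⟨hA, hAc, hC, hCc, hc1, hc2, hcS, hv⟩ := id h1
  obtain ⟨hA', hAc', hC', hCc', hc1', hc2', hcS', hv'⟩ := id h2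
  have hAne : A.Nonempty := by
    rw [← Finset.card_pos]; omega
  obtain ⟨z, hz⟩ := hAne
  have bz : n < z ∧ z ≤ n + v := (mem_blk.1 (hA hz)).1
  refine sep_of hα0 hS h1 h2 n z bz.1.le ?_
  rw [Multiset.mem_sub]
  have h3 : Multiset.count z (A'.val + C.val + {c}) = 0 := by
    rw [Multiset.count_eq_zero]
    simp only [Multiset.mem_add, Multiset.mem_singleton, Finset.mem_val]
    rintro ((h | h) | h)
    · have := (mem_blk.1 (hA' h)).1; omega
    · have := (mem_blk.1 (hC h)).1; omega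
    · omega
  rw [h3, Multiset.count_pos]
  simp [hz]

lemma sep_lt' {α : ℝ} (hα0 : 0 ≤ α) {k : ℕ} {S : Set ℕ} (hS : IsStrongB α (2 * k + 1) S)
    {n v n' v' : ℕ} {A A' C C' : Finset ℕ} {c c' : ℕ} (h1 : Dat S k n v A C c)
    (h2 : Dat S k n' v' A' C' c') (hnn : 3 * n ≤ n') :
    (n : ℝ) ^ α ≤ |val A C c - val A' C' c'| := by
  rw [abs_sub_comm]
  refine le_trans ?_ (sep_lt hα0 hS h2 h1 hnn)
  exact Real.rpow_le_rpow (Nat.cast_nonneg _) (by exact_mod_cast (by omega : n ≤ n')) hα0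

/-! ## One scale -/

/-- the data at scale `n` with value in `[0, L]` -/
noncomputable def trip (S : Set ℕ) (j n v L : ℕ) : Finset (Σ _ : Finset ℕ × Finset ℕ, ℕ) :=
  (Finset.powersetCard (j + 2) (blk S n (n + v)) ×ˢ
      Finset.powersetCard j (blk S (n + v) (n + 2 * v))).sigma
    fun p => blk S ((∑ x ∈ p.1, x) - (∑ x ∈ p.2, x) - L) ((∑ x ∈ p.1, x) - (∑ x ∈ p.2, x))

lemma sums {S : Set ℕ} {j n v : ℕ} (hn : n = 8 * ((j + 1) * v)) {A C : Finset ℕ}
    (hA : A ∈ Finset.powersetCard (j + 2) (blk S n (n + v)))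
    (hC : C ∈ Finset.powersetCard j (blk S (n + v) (n + 2 * v))) :
    4 * (∑ x ∈ C, x) + 7 * n ≤ 4 * (∑ x ∈ A, x) ∧
      4 * (∑ x ∈ A, x) ≤ 4 * (∑ x ∈ C, x) + 9 * n := by
  rw [Finset.mem_powersetCard] at hA hC
  have hA1 : A.card • n ≤ ∑ x ∈ A, x :=
    Finset.card_nsmul_le_sum A (fun x => x) n fun x hx => (mem_blk.1 (hA.1 hx)).1.1.le
  have hA2 : ∑ x ∈ A, x ≤ A.card • (n + v) :=
    Finset.sum_le_card_nsmul A (fun x => x) (n + v) fun x hx => (mem_blk.1 (hA.1 hx)).1.2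
  have hC1 : C.card • n ≤ ∑ x ∈ C, x :=
    Finset.card_nsmul_le_sum C (fun x => x) n fun x hx => by
      have := (mem_blk.1 (hC.1 hx)).1.1; omega
  have hC2 : ∑ x ∈ C, x ≤ C.card • (n + 2 * v) :=
    Finset.sum_le_card_nsmul C (fun x => x) (n + 2 * v) fun x hx => (mem_blk.1 (hC.1 hx)).1.2
  rw [hA.2, smul_eq_mul] at hA1 hA2
  rw [hC.2, smul_eq_mul] at hC1 hC2
  constructor
  · nlinarith
  · nlinarith

lemma mem_trip {S : Set ℕ} {j n v L : ℕ} (hn : n = 8 * ((j + 1) * v)) (hv : 1 ≤ v) (hL : L ≤ v)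
    {i : Σ _ : Finset ℕ × Finset ℕ, ℕ} (hi : i ∈ trip S j n v L) :
    Dat S (j + 1) n v i.1.1 i.1.2 i.2 ∧ 0 ≤ val i.1.1 i.1.2 i.2 ∧ val i.1.1 i.1.2 i.2 ≤ L := by
  obtain ⟨⟨A, C⟩, c⟩ := i
  unfold trip at hi
  rw [Finset.mem_sigma, Finset.mem_product] at hi
  obtain ⟨⟨hA, hC⟩, hc⟩ := hi
  simp only at hA hC hc ⊢
  obtain ⟨s1, s2⟩ := sums hn hA hC
  have h8 : 8 * v ≤ n := by rw [hn]; nlinarith
  obtain ⟨⟨hc1, hc2⟩, hcS⟩ := mem_blk.1 hc
  have hA' := Finset.mem_powersetCard.1 hA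
  have hC' := Finset.mem_powersetCard.1 hC
  refine ⟨⟨hA'.1, hA'.2, hC'.1, by rw [hC'.2], ?_, ?_, hcS, by omega⟩, ?_, ?_⟩
  · omega
  · omega
  · unfold val
    have h1 : (∑ x ∈ C, x) + c ≤ ∑ x ∈ A, x := by omega
    have h2 : (((∑ x ∈ C, x) + c : ℕ) : ℝ) ≤ ((∑ x ∈ A, x : ℕ) : ℝ) := by exact_mod_cast h1
    push_cast at h2
    linarith
  · unfold val
    have h1 : ∑ x ∈ A, x ≤ (∑ x ∈ C, x) + c + L := by omega
    have h2 : ((∑ x ∈ A, x : ℕ) : ℝ) ≤ (((∑ x ∈ C, x) + c + L : ℕ) : ℝ) := by exact_mod_cast h1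
    push_cast at h2
    linarith

/-- the constant of the counting lemma -/
noncomputable def cst (j : ℕ) : ℝ :=
  (1 / (32 * (j + 1))) ^ (2 * (j + 1)) * (1 / 3) / ((j + 2).factorial * j.factorial)

lemma cst_pos (j : ℕ) : 0 < cst j := by
  unfold cst
  positivity

lemma card_trip {S : Set ℕ} {j n v L : ℕ} {α γ c : ℝ} (hn : n = 8 * ((j + 1) * v))
    (hv : 1 ≤ v) (hL : L ≤ v) (hγ : γ * (2 * (j + 1) + 1 : ℕ) = 1 - α) (hγ0 : 0 < γ)
    (hc : 0 < c)
    (h1 : ∀ x : ℕ, n ≤ x → c * (1 / (16 * (j + 1))) * (x : ℝ) ^ γ ≤ loc S (1 / (16 * (j + 1))) x)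
    (h2 : ∀ x : ℕ, n ≤ x → c * (L / (3 * n)) * (x : ℝ) ^ γ ≤ loc S (L / (3 * n)) x)
    (hbig : (j + 1 : ℝ) ≤ c * (1 / (32 * (j + 1))) * (n : ℝ) ^ γ) :
    cst j * c ^ (2 * (j + 1) + 1) * L ≤ (trip S j n v L).card * (n : ℝ) ^ α := by
  have h8 : 8 * v ≤ n := by rw [hn]; nlinarith
  have hnpos : 0 < n := by omega
  have hn' : (0 : ℝ) < n := by exact_mod_cast hnpos
  have hv' : (0 : ℝ) < v := by exact_mod_cast hv
  have hnv : (n : ℝ) = 8 * ((j + 1) * v) := by rw [hn]; push_cast; ring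
  have hLv : (L : ℝ) ≤ v := by exact_mod_cast hL
  set X : ℝ := c * (1 / (32 * (j + 1))) * (n : ℝ) ^ γ with hX
  have hX0 : 0 ≤ X := by positivity
  have hblk : ∀ x : ℕ, n + v ≤ x → x ≤ 2 * n → 2 * X ≤ (blk S (x - v) x).card := by
    intro x hx1 hx2
    have hx2' : (x : ℝ) ≤ 2 * n := by exact_mod_cast hx2
    have hx1' : (n : ℝ) ≤ x := by exact_mod_cast (by omega : n ≤ x)
    have h3 : (1 / (16 * (j + 1)) : ℝ) * x ≤ v := by
      rw [div_mul_eq_mul_div, one_mul, div_le_iff₀ (by positivity)]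
      rw [hnv] at hx2'
      linarith
    have h4 : (n : ℝ) ^ γ ≤ (x : ℝ) ^ γ := Real.rpow_le_rpow hn'.le hx1' hγ0.le
    have h5 : 2 * X = c * (1 / (16 * (j + 1))) * (n : ℝ) ^ γ := by
      rw [hX]; field_simp; ring
    have h6 : (loc S (1 / (16 * (j + 1))) x : ℝ) ≤ (blk S (x - v) x).card := by
      exact_mod_cast loc_le S _ x v h3 (by omega)
    rw [h5]
    calc c * (1 / (16 * (j + 1))) * (n : ℝ) ^ γ ≤ c * (1 / (16 * (j + 1))) * (x : ℝ) ^ γ := by
          gcongr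
      _ ≤ loc S (1 / (16 * (j + 1))) x := h1 x (by omega)
      _ ≤ _ := h6
  have hb1 : 2 * X ≤ (blk S n (n + v)).card := by
    have := hblk (n + v) le_rfl (by omega)
    rwa [Nat.add_sub_cancel] at this
  have hb2 : 2 * X ≤ (blk S (n + v) (n + 2 * v)).card := by
    have := hblk (n + 2 * v) (by omega) (by omega)
    have e : n + 2 * v - v = n + v := by omega
    rwa [e] at this
  have hch1 : X ^ (j + 2) / (j + 2).factorial ≤ ((blk S n (n + v)).card.choose (j + 2) : ℝ) := by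
    apply choose_ge _ _ _ hX0
    push_cast
    linarith
  have hch2 : X ^ j / j.factorial ≤ ((blk S (n + v) (n + 2 * v)).card.choose j : ℝ) := by
    apply choose_ge _ _ _ hX0
    linarith
  set y : ℝ := c * (L / (3 * n)) * (n : ℝ) ^ γ with hy
  have hy0 : 0 ≤ y := by positivity
  have hcard : ((blk S n (n + v)).card.choose (j + 2) : ℝ) *
      ((blk S (n + v) (n + 2 * v)).card.choose j : ℝ) * y ≤ (trip S j n v L).card := by
    unfold trip
    rw [Finset.card_sigma, Nat.cast_sum]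
    have h3 : ∀ p ∈ Finset.powersetCard (j + 2) (blk S n (n + v)) ×ˢ
        Finset.powersetCard j (blk S (n + v) (n + 2 * v)),
        y ≤ ((blk S ((∑ x ∈ p.1, x) - (∑ x ∈ p.2, x) - L)
          ((∑ x ∈ p.1, x) - (∑ x ∈ p.2, x))).card : ℝ) := by
      intro p hp
      rw [Finset.mem_product] at hp
      obtain ⟨s1, s2⟩ := sums hn hp.1 hp.2
      set x : ℕ := (∑ x ∈ p.1, x) - (∑ x ∈ p.2, x) with hx
      have hx2' : (x : ℝ) ≤ 3 * n := by exact_mod_cast (by omega : x ≤ 3 * n)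
      have hx1' : (n : ℝ) ≤ x := by exact_mod_cast (by omega : n ≤ x)
      have h4 : (n : ℝ) ^ γ ≤ (x : ℝ) ^ γ := Real.rpow_le_rpow hn'.le hx1' hγ0.le
      have h5 : (L / (3 * n) : ℝ) * x ≤ L := by
        rw [div_mul_eq_mul_div, div_le_iff₀ (by positivity)]
        gcongr
      have h6 : (loc S (L / (3 * n)) x : ℝ) ≤ (blk S (x - L) x).card := by
        exact_mod_cast loc_le S _ x L h5 (by omega)
      calc y ≤ c * (L / (3 * n)) * (x : ℝ) ^ γ := by rw [hy]; gcongr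
        _ ≤ loc S (L / (3 * n)) x := h2 x (by omega)
        _ ≤ _ := h6
    have h4 := Finset.card_nsmul_le_sum _ _ _ h3
    rw [Finset.card_product, Finset.card_powersetCard, Finset.card_powersetCard, nsmul_eq_mul] at h4
    push_cast at h4
    exact h4
  have hexp : X ^ (2 * (j + 1)) * y * (n : ℝ) ^ α =
      (1 / (32 * (j + 1))) ^ (2 * (j + 1)) * (1 / 3) * c ^ (2 * (j + 1) + 1) * L := by
    have h3 : ((n : ℝ) ^ γ) ^ (2 * (j + 1) + 1) * (n : ℝ) ^ α = n := by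
      rw [← Real.rpow_natCast ((n : ℝ) ^ γ), ← Real.rpow_mul hn'.le, hγ, ← Real.rpow_add hn']
      rw [show 1 - α + α = 1 by ring, Real.rpow_one]
    rw [hX, hy, mul_pow, mul_pow]
    have h4 : c ^ (2 * (j + 1)) * (1 / (32 * (j + 1)) : ℝ) ^ (2 * (j + 1)) *
        ((n : ℝ) ^ γ) ^ (2 * (j + 1)) * (c * (L / (3 * n)) * (n : ℝ) ^ γ) * (n : ℝ) ^ α
        = (1 / (32 * (j + 1))) ^ (2 * (j + 1)) * c ^ (2 * (j + 1) + 1) * (L / (3 * n)) *
          (((n : ℝ) ^ γ) ^ (2 * (j + 1) + 1) * (n : ℝ) ^ α) := by ring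
    rw [h4, h3]
    field_simp
  have hfin : cst j * c ^ (2 * (j + 1) + 1) * L =
      (X ^ (j + 2) / (j + 2).factorial) * (X ^ j / j.factorial) * y * (n : ℝ) ^ α := by
    have h3 : (X ^ (j + 2) / (j + 2).factorial) * (X ^ j / j.factorial) * y * (n : ℝ) ^ α
        = (X ^ (2 * (j + 1)) * y * (n : ℝ) ^ α) / ((j + 2).factorial * j.factorial) := by
      have : X ^ (2 * (j + 1)) = X ^ (j + 2) * X ^ j := by
        rw [← pow_add]; congr 1; ring
      rw [this]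
      field_simp
    rw [h3, hexp]
    unfold cst
    field_simp
  rw [hfin]
  have h6 : (X ^ (j + 2) / (j + 2).factorial) * (X ^ j / j.factorial) * y ≤
      (trip S j n v L).card := by
    refine le_trans ?_ hcard
    gcongr
  gcongr

/-! ## All scales -/

lemma core' (α : ℝ) (hα0 : 0 ≤ α) (hα1 : α < 1) (j : ℕ) (c : ℝ) (hc : 0 < c) (J : ℕ)
    (hJ : 2 < J * (cst j * c ^ (2 * (j + 1) + 1))) (S : Set ℕ)
    (hS : IsStrongB α (2 * (j + 1) + 1) S)
    (hε : ∀ ε : ℝ, 1 / (24 * (j + 1) * 4 ^ J) ≤ ε → ε ≤ 1 → ∀ᶠ x : ℕ in atTop,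
      c * ε * (x : ℝ) ^ ((1 - α) / (2 * (j + 1) + 1 : ℕ)) ≤ loc S ε x) : False := by
  obtain ⟨γ, hγdef⟩ : ∃ γ : ℝ, γ = (1 - α) / (2 * (j + 1) + 1 : ℕ) := ⟨_, rfl⟩
  rw [← hγdef] at hε
  have hden : (0 : ℝ) < (2 * (j + 1) + 1 : ℕ) := by positivity
  have hγ0 : 0 < γ := by
    rw [hγdef]
    exact div_pos (by linarith) hden
  have hγ : γ * (2 * (j + 1) + 1 : ℕ) = 1 - α := by
    rw [hγdef]
    field_simp
  have hj0 : (0 : ℝ) ≤ j := Nat.cast_nonneg j
  have hcst := cst_pos j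
  have hB : (0 : ℝ) < 8 * (j + 1) * 4 ^ J := by positivity
  -- the values of `ε`
  have e1 : ∀ᶠ x : ℕ in atTop, c * (1 / (16 * (j + 1))) * (x : ℝ) ^ γ ≤
      loc S (1 / (16 * (j + 1))) x := by
    refine hε _ ?_ ?_
    · apply one_div_le_one_div_of_le (by positivity)
      have h4 : (1 : ℝ) ≤ 4 ^ J := one_le_pow₀ (by norm_num)
      have : (24 * (j + 1) : ℝ) * 1 ≤ 24 * (j + 1) * 4 ^ J := by gcongr
      linarith
    · rw [div_le_one (by positivity)]
      linarith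
  have e2 : ∀ᶠ x : ℕ in atTop, ∀ i ∈ Finset.range J,
      c * (1 / (24 * (j + 1) * 4 ^ i)) * (x : ℝ) ^ γ ≤ loc S (1 / (24 * (j + 1) * 4 ^ i)) x := by
    rw [Filter.eventually_all_finset]
    intro i hi
    rw [Finset.mem_range] at hi
    refine hε _ ?_ ?_
    · apply one_div_le_one_div_of_le (by positivity)
      have h4 : (4 : ℝ) ^ i ≤ 4 ^ J := pow_le_pow_right₀ (by norm_num) hi.le
      gcongr
    · rw [div_le_one (by positivity)]
      have h4 : (1 : ℝ) ≤ 4 ^ i := one_le_pow₀ (by norm_num)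
      have : (24 * (j + 1) : ℝ) * 1 ≤ 24 * (j + 1) * 4 ^ i := by gcongr
      linarith
  obtain ⟨n0, hn0⟩ := Filter.eventually_atTop.1 (e1.and e2)
  -- choice of `L`
  have ht1 : Tendsto (fun L : ℕ => (L : ℝ) ^ γ) atTop atTop :=
    (tendsto_rpow_atTop hγ0).comp tendsto_natCast_atTop_atTop
  have ht2 : Tendsto (fun L : ℕ => (L : ℝ) ^ (1 - α)) atTop atTop :=
    (tendsto_rpow_atTop (by linarith)).comp tendsto_natCast_atTop_atTop
  obtain ⟨L, ⟨hL1, hL2⟩, hL3, hL4⟩ :=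
    ((ht1.eventually_ge_atTop ((j + 1) / (c * (1 / (32 * (j + 1)))))).and
      (ht2.eventually_ge_atTop ((8 * (j + 1) * 4 ^ J : ℝ) ^ α))).and
      ((eventually_ge_atTop n0).and (eventually_ge_atTop 1)) |>.exists
  have hL0 : (0 : ℝ) < L := by exact_mod_cast (by omega : 0 < L)
  rw [div_le_iff₀ (by positivity)] at hL1
  set nn : ℕ → ℕ := fun i => 8 * ((j + 1) * (4 ^ i * L)) with hnn
  set vv : ℕ → ℕ := fun i => 4 ^ i * L with hvv
  have hLv : ∀ i, L ≤ vv i := fun i => Nat.le_mul_of_pos_left L (by positivity)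
  have hv1 : ∀ i, 1 ≤ vv i := fun i => hL4.trans (hLv i)
  have hvn : ∀ i, vv i ≤ nn i := by
    intro i
    change 4 ^ i * L ≤ 8 * ((j + 1) * (4 ^ i * L))
    nlinarith [Nat.zero_le (4 ^ i * L), Nat.zero_le (j * (4 ^ i * L))]
  have hnL : ∀ i, L ≤ nn i := fun i => (hLv i).trans (hvn i)
  have hstep : ∀ i i', i < i' → 3 * nn i ≤ nn i' := by
    intro i i' hii
    change 3 * (8 * ((j + 1) * (4 ^ i * L))) ≤ 8 * ((j + 1) * (4 ^ i' * L))
    have h3 : 4 ^ (i + 1) ≤ 4 ^ i' := Nat.pow_le_pow_right (by norm_num) hii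
    have h4 : 3 * 4 ^ i ≤ 4 ^ i' := by
      rw [pow_succ] at h3
      omega
    have h5 : 8 * ((j + 1) * ((3 * 4 ^ i) * L)) ≤ 8 * ((j + 1) * (4 ^ i' * L)) := by gcongr
    refine le_trans (le_of_eq ?_) h5
    ring
  have hneq : ∀ i, (nn i : ℝ) = (8 * (j + 1) * 4 ^ i) * L := by
    intro i
    change ((8 * ((j + 1) * (4 ^ i * L)) : ℕ) : ℝ) = _
    push_cast
    ring
  have hnα : ∀ i, i < J → (nn i : ℝ) ^ α ≤ L := by
    intro i hi
    have h3 : (4 : ℝ) ^ i ≤ 4 ^ J := pow_le_pow_right₀ (by norm_num) hi.le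
    calc (nn i : ℝ) ^ α ≤ ((8 * (j + 1) * 4 ^ J) * L) ^ α := by
          refine Real.rpow_le_rpow (Nat.cast_nonneg _) ?_ hα0
          rw [hneq]
          gcongr
      _ = (8 * (j + 1) * 4 ^ J : ℝ) ^ α * (L : ℝ) ^ α := Real.mul_rpow hB.le hL0.le
      _ ≤ (L : ℝ) ^ (1 - α) * (L : ℝ) ^ α := by gcongr
      _ = L := by
          rw [← Real.rpow_add hL0, show 1 - α + α = 1 by ring, Real.rpow_one]
  have hcount : ∀ i ∈ Finset.range J, cst j * c ^ (2 * (j + 1) + 1) * L ≤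
      (trip S j (nn i) (vv i) L).card * (nn i : ℝ) ^ α := by
    intro i hi
    have hLn : (L : ℝ) / (3 * (nn i : ℝ)) = 1 / (24 * (j + 1) * 4 ^ i) := by
      rw [hneq]
      field_simp
      ring
    refine card_trip rfl (hv1 i) (hLv i) hγ hγ0 hc ?_ ?_ ?_
    · intro x hx
      exact (hn0 x (hL3.trans ((hnL i).trans hx))).1
    · intro x hx
      rw [hLn]
      exact (hn0 x (hL3.trans ((hnL i).trans hx))).2 i hi
    · have h3 : (L : ℝ) ^ γ ≤ (nn i : ℝ) ^ γ :=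
        Real.rpow_le_rpow hL0.le (by exact_mod_cast hnL i) hγ0.le
      calc (j + 1 : ℝ) ≤ (L : ℝ) ^ γ * (c * (1 / (32 * (j + 1)))) := hL1
        _ ≤ (nn i : ℝ) ^ γ * (c * (1 / (32 * (j + 1)))) := by gcongr
        _ = c * (1 / (32 * (j + 1))) * (nn i : ℝ) ^ γ := by ring
  have key := pack ((Finset.range J).sigma fun i => trip S j (nn i) (vv i) L)
    (fun i => val i.2.1.1 i.2.1.2 i.2.2) (fun i => (nn i.1 : ℝ) ^ α) 0 L L
    (by
      intro i hi
      rw [Finset.mem_sigma] at hi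
      exact (mem_trip rfl (hv1 _) (hLv _) hi.2).2.1)
    (by
      intro i hi
      rw [Finset.mem_sigma] at hi
      rw [zero_add]
      exact (mem_trip rfl (hv1 _) (hLv _) hi.2).2.2)
    (fun i _ => by positivity)
    (by
      intro i hi
      rw [Finset.mem_sigma, Finset.mem_range] at hi
      exact hnα _ hi.1)
    (by positivity)
    (by
      rintro ⟨i, ⟨A, C⟩, c⟩ hi ⟨i', ⟨A', C'⟩, c'⟩ hi' hne
      rw [Finset.mem_sigma] at hi hi'
      have d1 := (mem_trip rfl (hv1 _) (hLv _) hi.2).1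
      have d2 := (mem_trip rfl (hv1 _) (hLv _) hi'.2).1
      simp only at d1 d2 ⊢
      rcases lt_trichotomy i i' with hlt | heq | hgt
      · exact sep_lt' hα0 hS d1 d2 (hstep i i' hlt)
      · subst heq
        refine sep_same hα0 hS d1 d2 ?_
        rintro ⟨rfl, rfl, rfl⟩
        exact hne rfl
      · exact sep_lt hα0 hS d1 d2 (hstep i' i hgt))
  rw [Finset.sum_sigma] at key
  have h3 : ∑ i ∈ Finset.range J, ∑ _s ∈ trip S j (nn i) (vv i) L, (nn i : ℝ) ^ α =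
      ∑ i ∈ Finset.range J, (trip S j (nn i) (vv i) L).card * (nn i : ℝ) ^ α := by
    refine Finset.sum_congr rfl fun i _ => ?_
    rw [Finset.sum_const, nsmul_eq_mul]
  rw [h3] at key
  have h4 := Finset.card_nsmul_le_sum _ _ _ hcount
  rw [Finset.card_range, nsmul_eq_mul] at h4
  have h5 : (J : ℝ) * (cst j * c ^ (2 * (j + 1) + 1)) * L ≤
      J * (cst j * c ^ (2 * (j + 1) + 1) * L) := le_of_eq (by ring)
  have h6 : 2 * (L : ℝ) < (J : ℝ) * (cst j * c ^ (2 * (j + 1) + 1)) * L := by gcongr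
  linarith

lemma count_le_loc (S : Set ℕ) (ε : ℝ) (x : ℕ) :
    count S x ≤ count S ⌊(1 - ε) * (x : ℝ)⌋₊ + loc S ε x := by
  unfold count loc
  refine le_trans (Set.ncard_le_ncard ?_ ?_) (Set.ncard_union_le _ _)
  · rintro s ⟨hs, h1, h2⟩
    rcases lt_or_ge ((1 - ε) * (x : ℝ)) s with h3 | h3
    · exact Or.inr ⟨hs, h3, h2⟩
    · exact Or.inl ⟨hs, h1, Nat.le_floor h3⟩
  · refine Set.Finite.union ((Set.finite_Icc 1 _).subset Set.inter_subset_right)
      ((Set.finite_Iic x).subset ?_)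
    rintro s ⟨_, _, h2⟩
    exact h2

lemma short (j : ℕ) : ∃ C : ℝ, 0 < C ∧ ∀ α : ℝ, 0 ≤ α → α < 1 → ∀ c : ℝ, 0 < c → c ≤ 1 →
    ∀ S : Set ℕ, IsStrongB α (2 * (j + 1) + 1) S →
      ∃ ε : ℝ, Real.exp (-(C / c ^ (2 * (j + 1) + 1))) ≤ ε ∧ ε ≤ 1 ∧
        ∃ᶠ x : ℕ in atTop,
          (loc S ε x : ℝ) < c * ε * (x : ℝ) ^ ((1 - α) / (2 * (j + 1) + 1 : ℕ)) := by
  have hcst := cst_pos j
  have hj0 : (0 : ℝ) ≤ j := Nat.cast_nonneg j
  have hlog4 : 0 < Real.log 4 := Real.log_pos (by norm_num)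
  have hlog24 : 0 ≤ Real.log (24 * (j + 1)) := Real.log_nonneg (by linarith)
  refine ⟨Real.log (24 * (j + 1)) + (2 / cst j + 1) * Real.log 4, by positivity, ?_⟩
  intro α hα0 hα1 c hc hc1 S hS
  have hch : 0 < c ^ (2 * (j + 1) + 1) := by positivity
  have hch1 : c ^ (2 * (j + 1) + 1) ≤ 1 := pow_le_one₀ hc.le hc1
  set J : ℕ := ⌊2 / (cst j * c ^ (2 * (j + 1) + 1))⌋₊ + 1 with hJdef
  have hJ1 : 2 / (cst j * c ^ (2 * (j + 1) + 1)) < J := by
    rw [hJdef]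
    push_cast
    exact Nat.lt_floor_add_one _
  have hJ2 : (J : ℝ) ≤ 2 / (cst j * c ^ (2 * (j + 1) + 1)) + 1 := by
    rw [hJdef]
    push_cast
    have := Nat.floor_le (a := 2 / (cst j * c ^ (2 * (j + 1) + 1))) (by positivity)
    linarith
  have hJ : 2 < J * (cst j * c ^ (2 * (j + 1) + 1)) := by
    rwa [div_lt_iff₀ (by positivity)] at hJ1
  have hexp : Real.exp (-((Real.log (24 * (j + 1)) + (2 / cst j + 1) * Real.log 4) /
      c ^ (2 * (j + 1) + 1))) ≤ 1 / (24 * (j + 1) * 4 ^ J) := by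
    rw [one_div, Real.exp_neg]
    apply inv_anti₀ (by positivity)
    rw [← Real.log_le_iff_le_exp (by positivity), Real.log_mul (by positivity) (by positivity),
      Real.log_pow]
    have h1 : 1 ≤ (c ^ (2 * (j + 1) + 1))⁻¹ := (one_le_inv₀ hch).2 hch1
    have h2 : (J : ℝ) ≤ (2 / cst j + 1) * (c ^ (2 * (j + 1) + 1))⁻¹ := by
      refine hJ2.trans ?_
      have h3 : 2 / (cst j * c ^ (2 * (j + 1) + 1)) = 2 / cst j * (c ^ (2 * (j + 1) + 1))⁻¹ := by
        field_simp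
      rw [h3, add_mul, one_mul]
      linarith
    rw [div_eq_mul_inv, add_mul]
    have h4 : Real.log (24 * (j + 1)) * 1 ≤
        Real.log (24 * (j + 1)) * (c ^ (2 * (j + 1) + 1))⁻¹ := by gcongr
    have h5 : (J : ℝ) * Real.log 4 ≤
        (2 / cst j + 1) * (c ^ (2 * (j + 1) + 1))⁻¹ * Real.log 4 := by gcongr
    linarith
  by_contra hcon
  push Not at hcon
  refine core' α hα0 hα1 j c hc J hJ S hS fun ε hε1 hε2 => ?_
  have h1 := hcon ε (hexp.trans hε1) hε2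
  exact h1

/-- the normalised counting function -/
noncomputable def dens (α : ℝ) (h : ℕ) (S : Set ℕ) (n : ℕ) : ℝ :=
  (count S n : ℝ) / (n : ℝ) ^ ((1 - α) / h)

lemma osc (α : ℝ) (hα0 : 0 ≤ α) (hα1 : α < 1) (h : ℕ) (j : ℕ) (hj : h = 2 * (j + 1) + 1) (lam : ℝ)
    (hlam : 0 < lam) : ∃ τ : ℝ, 0 < τ ∧ ∀ S : Set ℕ, IsStrongB α h S → ∀ μ : ℝ, lam ≤ μ → ∀ n0 : ℕ,
      (∀ m : ℕ, n0 ≤ m → μ * (m : ℝ) ^ ((1 - α) / h) ≤ count S m) →
      (∀ m : ℕ, n0 ≤ m → (count S m : ℝ) ≤ (1 + τ) * μ * (m : ℝ) ^ ((1 - α) / h)) → False := by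
  subst hj
  obtain ⟨C, hC, hshort⟩ := short j
  obtain ⟨γ, hγdef⟩ : ∃ γ : ℝ, γ = (1 - α) / (2 * (j + 1) + 1 : ℕ) := ⟨_, rfl⟩
  have hden : (0 : ℝ) < (2 * (j + 1) + 1 : ℕ) := by positivity
  have hden1 : (1 : ℝ) ≤ (2 * (j + 1) + 1 : ℕ) := by
    push_cast
    have : (0 : ℝ) ≤ j := Nat.cast_nonneg j
    linarith
  have hγ0 : 0 < γ := by
    rw [hγdef]
    exact div_pos (by linarith) hden
  have hγ1 : γ ≤ 1 := by
    rw [hγdef, div_le_one hden]
    linarith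
  set c : ℝ := min 1 (lam * γ / 2) with hcdef
  have hc : 0 < c := lt_min one_pos (by positivity)
  have hc1 : c ≤ 1 := min_le_left _ _
  have hc2 : c ≤ lam * γ / 2 := min_le_right _ _
  set ε₀ : ℝ := Real.exp (-(C / c ^ (2 * (j + 1) + 1))) with hε₀
  have hε₀0 : 0 < ε₀ := Real.exp_pos _
  refine ⟨γ * ε₀ / 2, by positivity, ?_⟩
  intro S hS μ hμ n0 h1 h2
  have hμ0 : 0 < μ := lt_of_lt_of_le hlam hμ
  obtain ⟨ε, hε1, hε2, hfreq⟩ := hshort α hα0 hα1 c hc hc1 S hS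
  have hε0 : 0 < ε := lt_of_lt_of_le hε₀0 hε1
  rw [← hγdef] at hfreq h1 h2
  have hev : ∀ᶠ x : ℕ in atTop, c * ε * (x : ℝ) ^ γ ≤ loc S ε x := by
    have e1 : ∀ᶠ x : ℕ in atTop, (count S ⌊(1 - ε) * (x : ℝ)⌋₊ : ℝ) ≤
        (1 + γ * ε₀ / 2) * μ * ((1 - ε) ^ γ * (x : ℝ) ^ γ) := by
      rcases hε2.eq_or_lt with h3 | h3
      · refine Eventually.of_forall fun x => ?_
        rw [h3, sub_self, zero_mul, Nat.floor_zero, count_eq]
        have : blk S 0 0 = ∅ := by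
          ext x
          simp only [mem_blk, Finset.notMem_empty, iff_false]
          rintro ⟨⟨h5, h6⟩, _⟩
          omega
        rw [this, Finset.card_empty, Nat.cast_zero]
        positivity
      · have h4 : Tendsto (fun x : ℕ => (1 - ε) * (x : ℝ)) atTop atTop :=
          tendsto_natCast_atTop_atTop.const_mul_atTop (by linarith)
        filter_upwards [h4.eventually_ge_atTop (n0 : ℝ)] with x hx
        have h5 : n0 ≤ ⌊(1 - ε) * (x : ℝ)⌋₊ := Nat.le_floor hx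
        refine (h2 _ h5).trans ?_
        have h6 : (0 : ℝ) ≤ (1 - ε) * (x : ℝ) := (Nat.cast_nonneg n0).trans hx
        have h7 : ((⌊(1 - ε) * (x : ℝ)⌋₊ : ℕ) : ℝ) ^ γ ≤ (1 - ε) ^ γ * (x : ℝ) ^ γ := by
          rw [← Real.mul_rpow (by linarith) (Nat.cast_nonneg _)]
          exact Real.rpow_le_rpow (Nat.cast_nonneg _) (Nat.floor_le h6) hγ0.le
        gcongr
    filter_upwards [e1, eventually_ge_atTop n0] with x hx1 hx2
    have h3 := h1 x hx2
    have h4 : (count S x : ℝ) ≤ count S ⌊(1 - ε) * (x : ℝ)⌋₊ + loc S ε x := by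
      exact_mod_cast count_le_loc S ε x
    have h5 : (1 - ε) ^ γ ≤ 1 - γ * ε := by
      have := rpow_one_add_le_one_add_mul_self (s := -ε) (p := γ) (by linarith) hγ0.le hγ1
      calc (1 - ε) ^ γ = (1 + -ε) ^ γ := by rw [sub_eq_add_neg]
        _ ≤ 1 + γ * -ε := this
        _ = 1 - γ * ε := by ring
    have hX : (0 : ℝ) ≤ (x : ℝ) ^ γ := by positivity
    have h6 : (1 + γ * ε₀ / 2) * μ * ((1 - ε) ^ γ * (x : ℝ) ^ γ) ≤
        (1 + γ * ε₀ / 2) * μ * ((1 - γ * ε) * (x : ℝ) ^ γ) := by gcongr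
    have h7 : (1 + γ * ε₀ / 2) * (1 - γ * ε) ≤ 1 - γ * ε / 2 := by
      have h8 : γ * ε₀ / 2 ≤ γ * ε / 2 := by gcongr
      have h9 : 0 ≤ γ * ε₀ / 2 * (γ * ε) := by positivity
      nlinarith
    have h8 : (1 + γ * ε₀ / 2) * μ * ((1 - γ * ε) * (x : ℝ) ^ γ) ≤
        (1 - γ * ε / 2) * (μ * (x : ℝ) ^ γ) := by
      calc (1 + γ * ε₀ / 2) * μ * ((1 - γ * ε) * (x : ℝ) ^ γ)
          = ((1 + γ * ε₀ / 2) * (1 - γ * ε)) * (μ * (x : ℝ) ^ γ) := by ring
        _ ≤ (1 - γ * ε / 2) * (μ * (x : ℝ) ^ γ) := by gcongr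
    have h9 : c * ε * (x : ℝ) ^ γ ≤ γ * ε / 2 * (μ * (x : ℝ) ^ γ) := by
      calc c * ε * (x : ℝ) ^ γ ≤ (lam * γ / 2) * ε * (x : ℝ) ^ γ := by gcongr
        _ ≤ (μ * γ / 2) * ε * (x : ℝ) ^ γ := by gcongr
        _ = γ * ε / 2 * (μ * (x : ℝ) ^ γ) := by ring
    have h10 : (1 - γ * ε / 2) * (μ * (x : ℝ) ^ γ) =
        μ * (x : ℝ) ^ γ - γ * ε / 2 * (μ * (x : ℝ) ^ γ) := by ring
    linarith
  obtain ⟨x, hx1, hx2⟩ := (hfreq.and_eventually hev).exists
  linarith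

/-- **Short intervals and oscillation, odd order.** Let `h ≥ 3` be odd. There is `C > 0` such that for
all `0 ≤ α < 1`, all `0 < c ≤ 1` and every `α`-strong `B_h` set `S` of positive integers there is a
number `ε` with `exp (- C / c ^ h) ≤ ε ≤ 1` such that for infinitely many `x` the interval
`((1 - ε) x, x]` contains fewer than `c ε x ^ ((1 - α) / h)` elements of `S`. For every `α` and every
`λ > 0` there is `θ > 1` such that `liminf S(n) / n^((1-α)/h) ≥ λ` implies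
`limsup S(n) / n^((1-α)/h) ≥ θ liminf S(n) / n^((1-α)/h)`, and `S(n) / n^((1-α)/h)` can only
converge to `0`. -/
theorem result (h : ℕ) (h2 : 2 ≤ h) (hodd : Odd h) :
    (∃ C : ℝ, 0 < C ∧ ∀ α : ℝ, 0 ≤ α → α < 1 → ∀ c : ℝ, 0 < c → c ≤ 1 →
      ∀ S : Set ℕ, (∀ x ∈ S, 1 ≤ x) → IsStrongB α h S →
        ∃ ε : ℝ, Real.exp (-(C / c ^ h)) ≤ ε ∧ ε ≤ 1 ∧
          ∃ᶠ x : ℕ in Filter.atTop, (loc S ε x : ℝ) < c * ε * (x : ℝ) ^ ((1 - α) / h)) ∧
    (∀ α : ℝ, 0 ≤ α → α < 1 → ∀ lam : ℝ, 0 < lam → ∃ θ : ℝ, 1 < θ ∧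
      ∀ S : Set ℕ, (∀ x ∈ S, 1 ≤ x) → IsStrongB α h S →
      (lam : EReal) ≤ Filter.liminf (fun n : ℕ => ((dens α h S n : ℝ) : EReal)) Filter.atTop →
      (θ : EReal) * Filter.liminf (fun n : ℕ => ((dens α h S n : ℝ) : EReal)) Filter.atTop ≤
        Filter.limsup (fun n : ℕ => ((dens α h S n : ℝ) : EReal)) Filter.atTop) ∧
    ∀ α : ℝ, 0 ≤ α → α < 1 → ∀ S : Set ℕ, (∀ x ∈ S, 1 ≤ x) → IsStrongB α h S → ∀ l : ℝ,
      Filter.Tendsto (dens α h S) Filter.atTop (nhds l) → l = 0 := by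
  obtain ⟨j, hj⟩ : ∃ j, h = 2 * (j + 1) + 1 := by
    obtain ⟨k, hk⟩ := hodd
    exact ⟨k - 1, by omega⟩
  have main : ∀ α : ℝ, 0 ≤ α → α < 1 → ∀ lam : ℝ, 0 < lam → ∃ θ : ℝ, 1 < θ ∧
      ∀ S : Set ℕ, IsStrongB α h S →
      (lam : EReal) ≤ Filter.liminf (fun n : ℕ => ((dens α h S n : ℝ) : EReal)) Filter.atTop →
      (θ : EReal) * Filter.liminf (fun n : ℕ => ((dens α h S n : ℝ) : EReal)) Filter.atTop ≤
        Filter.limsup (fun n : ℕ => ((dens α h S n : ℝ) : EReal)) Filter.atTop := by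
    intro α hα0 hα1 lam hlam
    obtain ⟨τ, hτ, hcore⟩ := osc α hα0 hα1 h j hj (lam / 2) (by linarith)
    refine ⟨1 + τ, by linarith, ?_⟩
    intro S hS hlim
    by_contra hcon
    push Not at hcon
    set m := Filter.liminf (fun n : ℕ => ((dens α h S n : ℝ) : EReal)) Filter.atTop with hm
    set M := Filter.limsup (fun n : ℕ => ((dens α h S n : ℝ) : EReal)) Filter.atTop with hM
    have hmM : m ≤ M := Filter.liminf_le_limsup
    obtain ⟨r, hr1, hr2⟩ := EReal.lt_iff_exists_real_btwn.1 hcon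
    have hmtop : m ≠ ⊤ := by
      intro h0
      rw [h0] at hmM
      exact absurd (lt_of_le_of_lt hmM hr1) (not_lt.2 le_top)
    have hmbot : m ≠ ⊥ := by
      intro h0
      rw [h0] at hlim
      exact absurd (lt_of_lt_of_le (EReal.bot_lt_coe lam) hlim) (lt_irrefl _)
    obtain ⟨m', hm'⟩ : ∃ m' : ℝ, m = m' := ⟨m.toReal, (EReal.coe_toReal hmtop hmbot).symm⟩
    rw [hm'] at hr2 hlim
    have hr2' : r < (1 + τ) * m' := by exact_mod_cast hr2
    have hlim' : lam ≤ m' := by exact_mod_cast hlim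
    set μ : ℝ := max (lam / 2) (r / (1 + τ)) with hμ
    have hμm : μ < m' := by
      rw [hμ]
      refine max_lt (by linarith) ?_
      rw [div_lt_iff₀ (by linarith)]
      linarith
    have hrμ : r ≤ (1 + τ) * μ := by
      have : r / (1 + τ) ≤ μ := le_max_right _ _
      rw [div_le_iff₀ (by linarith)] at this
      linarith
    have hμm2 : (μ : EReal) < m := by
      rw [hm']
      exact_mod_cast hμm
    have e1 : ∀ᶠ n : ℕ in atTop, (μ : EReal) < ((dens α h S n : ℝ) : EReal) :=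
      Filter.eventually_lt_of_lt_liminf hμm2
    have e2 : ∀ᶠ n : ℕ in atTop, ((dens α h S n : ℝ) : EReal) < (r : EReal) :=
      Filter.eventually_lt_of_limsup_lt hr1
    obtain ⟨n0, hn0⟩ := Filter.eventually_atTop.1 ((e1.and e2).and (eventually_ge_atTop 1))
    refine hcore S hS μ (le_max_left _ _) n0 ?_ ?_
    · intro n hn
      obtain ⟨⟨a1, _⟩, a3⟩ := hn0 n hn
      have a1' : μ < dens α h S n := by exact_mod_cast a1
      have hn1 : (0 : ℝ) < n := by exact_mod_cast a3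
      unfold dens at a1'
      rw [lt_div_iff₀ (Real.rpow_pos_of_pos hn1 _)] at a1'
      exact a1'.le
    · intro n hn
      obtain ⟨⟨_, a2⟩, a3⟩ := hn0 n hn
      have a2' : dens α h S n < r := by exact_mod_cast a2
      have hn1 : (0 : ℝ) < n := by exact_mod_cast a3
      have hp : (0 : ℝ) < (n : ℝ) ^ ((1 - α) / h) := Real.rpow_pos_of_pos hn1 _
      unfold dens at a2'
      rw [div_lt_iff₀ hp] at a2'
      refine a2'.le.trans ?_
      gcongr
  refine ⟨?_, fun α hα0 hα1 lam hlam => ?_, ?_⟩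
  · obtain ⟨C, hC, hshort⟩ := short j
    subst hj
    exact ⟨C, hC, fun α hα0 hα1 c hc hc1 S _ hS => hshort α hα0 hα1 c hc hc1 S hS⟩
  · obtain ⟨θ, hθ, hmain⟩ := main α hα0 hα1 lam hlam
    exact ⟨θ, hθ, fun S _ hS => hmain S hS⟩
  · intro α hα0 hα1 S _ hS l hl
    have hl' : Filter.Tendsto (fun n : ℕ => ((dens α h S n : ℝ) : EReal)) Filter.atTop
        (nhds (l : EReal)) := (continuous_coe_real_ereal.tendsto l).comp hl
    have hl0 : 0 ≤ l := by
      refine ge_of_tendsto' hl fun n => ?_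
      unfold dens
      positivity
    by_contra hne
    have hlpos : 0 < l := lt_of_le_of_ne hl0 (Ne.symm hne)
    obtain ⟨θ, hθ, hmain⟩ := main α hα0 hα1 l hlpos
    have h3 := hmain S hS (by rw [hl'.liminf_eq])
    rw [hl'.liminf_eq, hl'.limsup_eq] at h3
    have h4 : θ * l ≤ l := by exact_mod_cast h3
    nlinarith

end Pool.Agent.Results.MP_1d2509_nt.ShortIntervals
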